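import Pool.Agent.helper15.DH.Spec
import Pool.Agent.helper78.ED.LV

/-!
# Module HMA of project dh: the one-sided Halász–Montgomery inequality, first step
-/

set_option autoImplicit false

open Complex MeasureTheory

namespace Pool.Agent.DH

open Pool.Agent.helper84.DM Pool.Agent.helper78.ED

theorem HMA_id (Z : Finset ℂ) (N : ℕ) (c : ℂ → ℂ) (b : ℕ → ℂ) (f : ℂ → ℂ) (x y : ℕ)
    (hf : ∀ ρ ∈ Z, f ρ = c ρ * DP N b ρ.im) :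
    RR Z f x y = ∑ n ∈ Finset.Ioc N (2 * N), b n * RR Z c (n * x) y := by
  unfold RR
  have h1 : ∀ ρ ∈ Z, f ρ * ((x : ℂ) ^ (-((ρ.im : ℂ) * I)) * (y : ℂ) ^ ((ρ.im : ℂ) * I)) =
      ∑ n ∈ Finset.Ioc N (2 * N), b n * (c ρ *
        (((n * x : ℕ) : ℂ) ^ (-((ρ.im : ℂ) * I)) * (y : ℂ) ^ ((ρ.im : ℂ) * I))) := by
    intro ρ hρ
    rw [hf ρ hρ]
    unfold DP
    rw [Finset.mul_sum, Finset.sum_mul]
    refine Finset.sum_congr rfl fun n _ => ?_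
    have h2 : (((n * x : ℕ)) : ℂ) ^ (-((ρ.im : ℂ) * I)) =
        (n : ℂ) ^ (-((ρ.im : ℂ) * I)) * (x : ℂ) ^ (-((ρ.im : ℂ) * I)) := by
      rw [Nat.cast_mul, Complex.natCast_mul_natCast_cpow]
    rw [h2]
    ring
  rw [Finset.sum_congr rfl h1, Finset.sum_comm]
  refine Finset.sum_congr rfl fun n _ => ?_
  rw [Finset.mul_sum]

theorem HMA_cs (s : Finset ℕ) (b g : ℕ → ℂ) :
    ‖∑ n ∈ s, b n * g n‖ ^ 2 ≤ (∑ n ∈ s, ‖b n‖ ^ 2) * ∑ n ∈ s, ‖g n‖ ^ 2 := by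
  have h1 : ‖∑ n ∈ s, b n * g n‖ ≤ ∑ n ∈ s, ‖b n‖ * ‖g n‖ := by
    refine (norm_sum_le _ _).trans (le_of_eq ?_)
    exact Finset.sum_congr rfl fun n _ => norm_mul _ _
  have h2 : (∑ n ∈ s, ‖b n‖ * ‖g n‖) ^ 2 ≤ (∑ n ∈ s, ‖b n‖ ^ 2) * ∑ n ∈ s, ‖g n‖ ^ 2 :=
    Finset.sum_mul_sq_le_sq_mul_sq s (fun n => ‖b n‖) (fun n => ‖g n‖)
  exact (pow_le_pow_left₀ (norm_nonneg _) h1 2).trans h2

theorem HMA (hQLO : QLO_stmt) : HMA_stmt := by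
  intro Z N L a V hV hZ
  choose c hc1 hc2 using fun ρ : ℂ => LV_unim (DP N a ρ.im)
  refine ⟨c, hc1, ?_⟩
  have h1 := hQLO Z (fun ρ => ‖DP N a ρ.im‖) V L hV hZ
  refine h1.trans ?_
  have h2 : ∀ x ∈ IL L, ∀ y ∈ IL L, ‖RR Z (fun ρ => ((‖DP N a ρ.im‖ : ℝ) : ℂ)) x y‖ ^ 2 ≤
      (∑ n ∈ Finset.Ioc N (2 * N), ‖a n‖ ^ 2) *
        ∑ n ∈ Finset.Ioc N (2 * N), ‖RR Z c (n * x) y‖ ^ 2 := by
    intro x _ y _
    rw [HMA_id Z N c a (fun ρ => ((‖DP N a ρ.im‖ : ℝ) : ℂ)) x y (fun ρ _ => (hc2 ρ).symm)]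
    exact HMA_cs _ _ _
  refine (Finset.sum_le_sum fun x hx => Finset.sum_le_sum fun y hy => h2 x hx y hy).trans
    (le_of_eq ?_)
  have h3 : ∑ n ∈ Finset.Ioc N (2 * N), ∑ x ∈ IL L, ∑ y ∈ IL L, ‖RR Z c (n * x) y‖ ^ 2 =
      ∑ x ∈ IL L, ∑ y ∈ IL L, ∑ n ∈ Finset.Ioc N (2 * N), ‖RR Z c (n * x) y‖ ^ 2 := by
    rw [Finset.sum_comm]
    refine Finset.sum_congr rfl fun x _ => ?_
    rw [Finset.sum_comm]
  rw [h3, Finset.mul_sum]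
  refine Finset.sum_congr rfl fun x _ => ?_
  rw [Finset.mul_sum]

end Pool.Agent.DH
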