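import Pool.Agent.helper57.DH.SpecL

/-!
# LJE: energy of the jumps (project d2, MP_5823cb_al)
-/

set_option autoImplicit false

open Filter Topology MeasureTheory
open scoped commutatorElement

namespace Pool.Agent.helper90.DH

open Pool.Agent.helper64.D2

/-- Affine on cells of level `s` implies affine on the smaller cells of level `r ≥ s`. -/
theorem LJE_PA (s r : ℕ) (f : ℝ → ℝ) (hsr : s ≤ r) (hf : PA s f) : PA r f := by
  intro k
  obtain ⟨a, b, h⟩ := hf (k / 2 ^ (r - s))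
  refine ⟨a, b, fun x hx => h x ?_⟩
  have hp : (0 : ℤ) < 2 ^ (r - s) := by positivity
  have h1 : (k / 2 ^ (r - s)) * 2 ^ (r - s) ≤ k := Int.ediv_mul_le k hp.ne'
  have h2 : k + 1 ≤ (k / 2 ^ (r - s) + 1) * 2 ^ (r - s) := by
    have := Int.lt_ediv_add_one_mul_self k hp
    linarith
  have e : (2 : ℝ) ^ r = 2 ^ s * 2 ^ (r - s) := by
    rw [← pow_add]; congr 1; omega
  have h1r : (((k / 2 ^ (r - s) : ℤ) : ℝ)) * 2 ^ (r - s) ≤ (k : ℝ) := by exact_mod_cast h1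
  have h2r : (k : ℝ) + 1 ≤ (((k / 2 ^ (r - s) : ℤ) : ℝ) + 1) * 2 ^ (r - s) := by exact_mod_cast h2
  have hs : (0 : ℝ) < 2 ^ s := by positivity
  have hr : (0 : ℝ) < 2 ^ r := by positivity
  have hrs : (0 : ℝ) < 2 ^ (r - s) := by positivity
  constructor
  · refine le_trans ?_ hx.1
    rw [div_le_div_iff₀ hs hr, e]
    nlinarith
  · refine lt_of_lt_of_le hx.2 ?_
    rw [div_le_div_iff₀ hr hs, e]
    nlinarith

theorem LJE_geo (n : ℕ) : ∑ k ∈ Finset.range n, √(1 / 2 ^ k) ≤ 4 := by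
  have h1 : ∀ k : ℕ, √(1 / 2 ^ k) ≤ ((3 : ℝ) / 4) ^ k := by
    intro k
    apply Real.sqrt_le_iff.2
    refine ⟨by positivity, ?_⟩
    rw [← pow_mul, mul_comm k 2, pow_mul, ← one_div_pow]
    exact pow_le_pow_left₀ (by norm_num) (by norm_num) k
  have h2 : ∀ n : ℕ, ∑ k ∈ Finset.range n, ((3 : ℝ) / 4) ^ k = 4 * (1 - (3 / 4) ^ n) := by
    intro n
    induction n with
    | zero => simp
    | succ n ih =>
      rw [Finset.sum_range_succ, ih, pow_succ]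
      ring
  calc ∑ k ∈ Finset.range n, √(1 / 2 ^ k) ≤ ∑ k ∈ Finset.range n, ((3 : ℝ) / 4) ^ k :=
        Finset.sum_le_sum (fun k _ => h1 k)
    _ = 4 * (1 - (3 / 4) ^ n) := h2 n
    _ ≤ 4 := by
      have : (0 : ℝ) ≤ (3 / 4) ^ n := by positivity
      linarith

theorem LJE_BMsum (hLBM : LBM_stmt) (I : Finset ℕ) (f : ℕ → ℝ → ℝ) (h : ∀ i ∈ I, BM (f i)) :
    BM (fun x => ∑ i ∈ I, f i x) := by
  classical
  induction I using Finset.induction_on with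
  | empty =>
    refine ⟨?_, ⟨0, fun x => ?_⟩, fun x _ => ?_⟩
    · simp
    · simp
    · simp
  | insert a I ha ih =>
    have h1 : BM (fun x => f a x + ∑ i ∈ I, f i x) :=
      (hLBM.1 (f a) (fun x => ∑ i ∈ I, f i x) (h a (Finset.mem_insert_self _ _))
        (ih (fun i hi => h i (Finset.mem_insert_of_mem hi)))).1
    have e : (fun x => ∑ i ∈ insert a I, f i x) = (fun x => f a x + ∑ i ∈ I, f i x) := by
      funext x
      rw [Finset.sum_insert ha]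
    rw [e]
    exact h1

theorem LJE (hLJB : LJB_stmt) (hLYN : LYN_stmt) (hLBM : LBM_stmt) (hLCS : LCS_stmt) (hLLV : LLV_stmt) : LJE_stmt := by
  obtain ⟨K, hK, hJ1, hJ2, hJ3, hJ4⟩ := hLJB
  refine ⟨64 * K, by linarith, ?_⟩
  intro s0 N e y hs0 hsN he hy hsupp
  obtain ⟨hV1, hV2, hV3, hV4⟩ := hLLV y hy
  have hS3 : ∀ r : ℕ, s0 ≤ r → ∀ x, x ∉ Set.Icc (1 / 5 : ℝ) (4 / 5) → Ds r y x = 0 := by
    intro r hr x hx
    refine (hV4 r (by omega)).2.1 hsupp x ?_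
    intro hmem
    exact hx ⟨by linarith [hmem.1], by linarith [hmem.2]⟩
  have hsum : nsq (us s0 N y) = ∑ r ∈ Finset.Ico s0 N, nsq (Ds r y) ∧ ∑ r ∈ Finset.Ico s0 N, nsq (Ds r y) ≤ nsq y :=
    (hV2 s0 N hsN).2.2.2.2
  have hnn : ∀ f : ℝ → ℝ, 0 ≤ nsq f := fun f => integral_nonneg (fun x => sq_nonneg _)
  set w : ℕ → ℝ := fun k => √(K / 2 ^ e / 2 ^ k) with hw
  set a : ℕ → ℝ := fun r => √(nsq (Ds r y)) with ha
  have hw0 : ∀ k, 0 ≤ w k := fun k => Real.sqrt_nonneg _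
  have ha0 : ∀ r, 0 ≤ a r := fun r => Real.sqrt_nonneg _
  have hKe : 0 ≤ K / 2 ^ e := by positivity
  have hwW : ∀ n, ∑ k ∈ Finset.range n, w k ≤ 4 * √(K / 2 ^ e) := by
    intro n
    have e1 : ∀ k, w k = √(K / 2 ^ e) * √(1 / 2 ^ k) := by
      intro k
      rw [hw]
      simp only
      rw [← Real.sqrt_mul hKe]
      congr 1
      ring
    calc ∑ k ∈ Finset.range n, w k = √(K / 2 ^ e) * ∑ k ∈ Finset.range n, √(1 / 2 ^ k) := by
          rw [Finset.mul_sum]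
          exact Finset.sum_congr rfl (fun k _ => e1 k)
      _ ≤ √(K / 2 ^ e) * 4 := mul_le_mul_of_nonneg_left (LJE_geo n) (Real.sqrt_nonneg _)
      _ = 4 * √(K / 2 ^ e) := by ring
  have hY := (hLYN w a (4 * √(K / 2 ^ e)) (Finset.Icc s0 N) (Finset.Ico s0 N) hw0 ha0 hwW).1
  -- the main bound
  have hmain : ∀ s ∈ Finset.Icc s0 N, nsq (JF s e (us s0 s y)) ≤
      (∑ r ∈ Finset.Ico s0 N, w ((s - r) + (r - s)) * a r) ^ 2 := by
    intro s hs
    rw [Finset.mem_Icc] at hs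
    obtain ⟨hs1, hs2⟩ := hs
    have hs4 : 4 ≤ s := by omega
    obtain ⟨hu1, hu2, hu3, -, -⟩ := hV2 s0 s hs1
    have hfe : us s0 s y = fun z => ∑ r ∈ Finset.Ico s0 s, Ds r y z := funext hu3
    have hus : ∀ x, x ∉ Set.Icc (1 / 5 : ℝ) (4 / 5) → us s0 s y x = 0 := by
      intro x hx
      rw [hu3]
      refine Finset.sum_eq_zero (fun r hr => hS3 r (Finset.mem_Ico.1 hr).1 x hx)
    obtain ⟨B, hB⟩ := hu1.2.1
    obtain ⟨hb1, hb2, hb3, -⟩ := hJ1 s e (us s0 s y) B he hs4 hu2 hB hus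
    have hD : ∀ r ∈ Finset.Ico s0 s, BM (JF s e (Ds r y)) ∧ (∀ x, 0 ≤ JF s e (Ds r y) x) ∧
        √(nsq (JF s e (Ds r y))) ≤ w (s - r) * a r := by
      intro r hr
      rw [Finset.mem_Ico] at hr
      obtain ⟨hd1, hd2, hd3⟩ := hV1 r
      obtain ⟨B', hB'⟩ := hd2.2.1
      obtain ⟨hc1, hc2, hc3, -⟩ := hJ1 s e (Ds r y) B' he hs4 (LJE_PA (r + 1) s _ (by omega) hd1) hB' (hS3 r hr.1)
      refine ⟨hc1, hc3, ?_⟩
      have h4 := hJ4 s r e (Ds r y) he hs4 hr.2 hd1 hd2 (hS3 r hr.1)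
      have h5 := Real.sqrt_le_sqrt h4
      rw [Real.sqrt_mul (by positivity)] at h5
      exact h5
    have hBS : BM (fun x => ∑ r ∈ Finset.Ico s0 s, JF s e (Ds r y) x) :=
      LJE_BMsum hLBM _ _ (fun r hr => (hD r hr).1)
    have h6 : nsq (JF s e (us s0 s y)) ≤ nsq (fun x => ∑ r ∈ Finset.Ico s0 s, JF s e (Ds r y) x) := by
      refine hLCS.2.2.2.1 _ _ hb1 hBS (fun x => ?_)
      have h7 : JF s e (us s0 s y) x ≤ ∑ r ∈ Finset.Ico s0 s, JF s e (Ds r y) x := by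
        have h8 := hJ3 s e (Finset.Ico s0 s) (fun r => Ds r y) x
        rw [hfe]
        exact h8
      rw [abs_of_nonneg (hb3 x), abs_of_nonneg ((hb3 x).trans h7)]
      exact h7
    have h9 : √(nsq (fun x => ∑ r ∈ Finset.Ico s0 s, JF s e (Ds r y) x)) ≤ ∑ r ∈ Finset.Ico s0 N, w ((s - r) + (r - s)) * a r := by
      refine (hLCS.2.2.1 (Finset.Ico s0 s) (fun r => JF s e (Ds r y)) (fun r hr => (hD r hr).1)).trans ?_
      calc ∑ r ∈ Finset.Ico s0 s, √(nsq (JF s e (Ds r y))) ≤ ∑ r ∈ Finset.Ico s0 s, w ((s - r) + (r - s)) * a r := by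
            refine Finset.sum_le_sum (fun r hr => ?_)
            have h10 : (s - r) + (r - s) = s - r := by
              rw [Finset.mem_Ico] at hr
              omega
            rw [h10]
            exact (hD r hr).2.2
        _ ≤ ∑ r ∈ Finset.Ico s0 N, w ((s - r) + (r - s)) * a r := by
            refine Finset.sum_le_sum_of_subset_of_nonneg (Finset.Ico_subset_Ico_right hs2) ?_
            intro r _ _
            exact mul_nonneg (hw0 _) (ha0 _)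
    calc nsq (JF s e (us s0 s y)) ≤ nsq (fun x => ∑ r ∈ Finset.Ico s0 s, JF s e (Ds r y) x) := h6
      _ = √(nsq (fun x => ∑ r ∈ Finset.Ico s0 s, JF s e (Ds r y) x)) ^ 2 := (Real.sq_sqrt (hnn _)).symm
      _ ≤ (∑ r ∈ Finset.Ico s0 N, w ((s - r) + (r - s)) * a r) ^ 2 :=
          pow_le_pow_left₀ (Real.sqrt_nonneg _) h9 2
  have ha2 : ∑ r ∈ Finset.Ico s0 N, a r ^ 2 = ∑ r ∈ Finset.Ico s0 N, nsq (Ds r y) :=
    Finset.sum_congr rfl (fun r _ => Real.sq_sqrt (hnn _))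
  calc ∑ s ∈ Finset.Icc s0 N, nsq (JF s e (us s0 s y))
      ≤ ∑ s ∈ Finset.Icc s0 N, (∑ r ∈ Finset.Ico s0 N, w ((s - r) + (r - s)) * a r) ^ 2 := Finset.sum_le_sum hmain
    _ ≤ (2 * (4 * √(K / 2 ^ e))) ^ 2 * ∑ r ∈ Finset.Ico s0 N, a r ^ 2 := hY
    _ = 64 * K / 2 ^ e * ∑ r ∈ Finset.Ico s0 N, nsq (Ds r y) := by
        rw [ha2]
        congr 1
        have : √(K / 2 ^ e) ^ 2 = K / 2 ^ e := Real.sq_sqrt hKe
        calc (2 * (4 * √(K / 2 ^ e))) ^ 2 = 64 * √(K / 2 ^ e) ^ 2 := by ring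
          _ = 64 * K / 2 ^ e := by rw [this]; ring
    _ ≤ 64 * K / 2 ^ e * nsq y := mul_le_mul_of_nonneg_left hsum.2 (by positivity)

end Pool.Agent.helper90.DH
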