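import Pool.Agent.helper48.DH.SpecY

/-!
# yE0: the mean part `Es s0 y` (project d2, MP_5823cb_al)
-/

set_option autoImplicit false

open Filter Topology MeasureTheory
open scoped commutatorElement

namespace Pool.Agent.helper90.DH

open Pool.Agent.helper64.D2

theorem yE0 (hLBM : LBM_stmt) (hLEB : LEB_stmt) (hCAL : yCAL_stmt) (hEM : yEM_stmt) (hGR : yGR_stmt) : yE0_stmt := by
  intro N s0 p p' y hs0 hY
  obtain ⟨hPA, hp, hpp, hp', hsup, hbd, hm0, hm1, hA⟩ := hY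
  have hBM : BM y := by
    refine hLBM.2.2.1 N y hPA (fun x hx => hsup x (fun h => hx ⟨by linarith [h.1], by linarith [h.2]⟩))
  have hBE : BM (Es s0 y) := (hLBM.2.2.2.1 s0 y hBM).1
  refine ⟨hBM, hBE, ?_⟩
  have h4 : ∀ x, |Es s0 y x| ≤ 4 := by
    intro x
    have := hLEB.2.1 s0 y 1 hBM hbd x
    linarith
  have hEsup := hLEB.2.2 s0 y p p' hsup
  obtain ⟨hgr, -, -⟩ := hGR s0 (Es s0 y) y hBE hBM (hEM.1 s0 y hBM)
  have hE : (0 : ℝ) < 1 / 2 ^ s0 := by positivity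
  have hsmall : (1 : ℝ) / 2 ^ s0 ≤ 1 / 100 := by
    have h1 : (2 : ℝ) ^ 10 ≤ 2 ^ s0 := pow_le_pow_right₀ (by norm_num) hs0
    have h2 : (1 : ℝ) / 2 ^ s0 ≤ 1 / 2 ^ 10 := one_div_le_one_div_of_le (by positivity) h1
    linarith [show (1 : ℝ) / 2 ^ 10 ≤ 1 / 100 by norm_num]
  have e4 : (1 : ℝ) / 4 ^ s0 = (1 / 2 ^ s0) * (1 / 2 ^ s0) := by
    rw [show (4 : ℝ) = 2 * 2 by norm_num, mul_pow]
    field_simp
  have e4' : (1 : ℝ) / 2 ^ (2 * s0) = (1 / 2 ^ s0) * (1 / 2 ^ s0) := by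
    rw [two_mul, pow_add]
    field_simp
  intro x
  set x0 : ℝ := (ci s0 x : ℝ) / 2 ^ s0 with hx0
  have h2s : (0 : ℝ) < 2 ^ s0 := by positivity
  have hx1 : x0 ≤ x := by
    rw [hx0, div_le_iff₀ h2s]
    have := Int.floor_le ((2 : ℝ) ^ s0 * x)
    unfold ci
    linarith
  have hx2 : x < x0 + 1 / 2 ^ s0 := by
    rw [hx0, ← add_div, lt_div_iff₀ h2s]
    have := Int.lt_floor_add_one ((2 : ℝ) ^ s0 * x)
    unfold ci
    linarith
  have hd0 : 0 ≤ x - x0 := by linarith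
  have hd1 : x - x0 ≤ 1 / 2 ^ s0 := by linarith
  have hg1 : (∫ t in (0 : ℝ)..x0, Es s0 y t) = ∫ t in (0 : ℝ)..x0, y t := (hgr (ci s0 x)).1
  have hg2 : A2 (Es s0 y) x0 = A2 y x0 := (hgr (ci s0 x)).2
  have hcal := (hCAL.1 (Es s0 y) hBE x x0).2.2.2
  obtain ⟨hA1, hA2⟩ := hA x0
  refine ⟨?_, ?_, ?_⟩
  · have h5 := (hcal 4 (fun t _ => h4 t)).1
    rw [abs_of_nonneg hd0, hg1] at h5
    have h6 : |∫ t in (0 : ℝ)..x, Es s0 y t| ≤
        |(∫ t in (0 : ℝ)..x, Es s0 y t) - ∫ t in (0 : ℝ)..x0, y t| + |∫ t in (0 : ℝ)..x0, y t| := by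
      have := abs_add_le ((∫ t in (0 : ℝ)..x, Es s0 y t) - ∫ t in (0 : ℝ)..x0, y t) (∫ t in (0 : ℝ)..x0, y t)
      rwa [sub_add_cancel] at this
    have h7 : (5 : ℝ) / 2 ^ s0 = 5 * (1 / 2 ^ s0) := by ring
    rw [h7]
    linarith
  · have h5 := (hcal 4 (fun t _ => h4 t)).2
    rw [hg1, hg2] at h5
    have h6 : |A2 (Es s0 y) x| ≤ |A2 (Es s0 y) x - A2 y x0 - (x - x0) * ∫ t in (0 : ℝ)..x0, y t| + |A2 y x0| +
        |(x - x0) * ∫ t in (0 : ℝ)..x0, y t| := by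
      have h8 := abs_add_three (A2 (Es s0 y) x - A2 y x0 - (x - x0) * ∫ t in (0 : ℝ)..x0, y t) (A2 y x0)
        ((x - x0) * ∫ t in (0 : ℝ)..x0, y t)
      have h9 : A2 (Es s0 y) x - A2 y x0 - (x - x0) * (∫ t in (0 : ℝ)..x0, y t) + A2 y x0 +
          (x - x0) * (∫ t in (0 : ℝ)..x0, y t) = A2 (Es s0 y) x := by ring
      rwa [h9] at h8
    have h7 : |(x - x0) * ∫ t in (0 : ℝ)..x0, y t| ≤ (1 / 2 ^ s0) * (1 / 2 ^ s0) := by
      rw [abs_mul, abs_of_nonneg hd0]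
      exact mul_le_mul hd1 hA1 (abs_nonneg _) hE.le
    have h8 : (x - x0) ^ 2 ≤ (1 / 2 ^ s0) * (1 / 2 ^ s0) := by
      rw [sq]
      exact mul_le_mul hd1 hd1 hd0 hE.le
    rw [e4'] at hA2
    have h9 : (6 : ℝ) / 4 ^ s0 = 6 * (1 / 4 ^ s0) := by ring
    rw [h9, e4]
    linarith
  · intro hx
    have hx' : x < p - 2 / 2 ^ s0 ∨ p' + 2 / 2 ^ s0 < x := by
      by_contra hcon
      push Not at hcon
      exact hx ⟨hcon.1, hcon.2⟩
    have h22 : (2 : ℝ) / 2 ^ s0 = 2 * (1 / 2 ^ s0) := by ring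
    rw [h22] at hx'
    rcases hx' with hx' | hx'
    · by_cases hneg : x ≤ 0
      · exact (hCAL.2.2.2.2.1 (Es s0 y) hBE).2.2 x hneg
      · push Not at hneg
        obtain ⟨hz1, hz2⟩ := (hCAL.2.2.2.2.1 (Es s0 y) hBE).2.2 0 le_rfl
        have h5 := (hCAL.1 (Es s0 y) hBE x 0).2.2.2 0 (fun t ht => by
          rw [Set.uIcc_of_le hneg.le] at ht
          rw [hEsup t (fun h => by linarith [h.1, ht.2]), abs_zero])
        rw [hz1, hz2] at h5
        simp only [zero_mul, mul_zero, sub_zero] at h5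
        exact ⟨abs_nonpos_iff.1 h5.1, abs_nonpos_iff.1 h5.2⟩
    · have hx0p : p' + 1 / 2 ^ s0 < x0 := by linarith
      have h5 := hcal 0 (fun t ht => by
          rw [Set.uIcc_of_le hx1] at ht
          rw [hEsup t (fun h => by linarith [h.2, ht.1]), abs_zero])
      have hx00 : 0 ≤ x0 := by linarith
      have hi0 : (∫ t in (0 : ℝ)..x0, y t) = 0 := by
        rw [intervalIntegral.integral_of_le hx00, MeasureTheory.setIntegral_eq_integral_of_forall_compl_eq_zero, hm0]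
        intro t ht
        apply hsup
        intro h
        exact ht ⟨by linarith [h.1], by linarith [h.2]⟩
      have hi1 : (∫ t in (0 : ℝ)..x0, t * y t) = 0 := by
        rw [intervalIntegral.integral_of_le hx00, MeasureTheory.setIntegral_eq_integral_of_forall_compl_eq_zero, hm1]
        intro t ht
        rw [hsup, mul_zero]
        intro h
        exact ht ⟨by linarith [h.1], by linarith [h.2]⟩
      have hA0 : A2 y x0 = 0 := by
        rw [(hCAL.1 y hBM x0 x0).2.2.1, hi0, hi1]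
        ring
      rw [hg1, hg2, hi0, hA0] at h5
      simp only [zero_mul, mul_zero, sub_zero] at h5
      exact ⟨abs_nonpos_iff.1 h5.1, abs_nonpos_iff.1 h5.2⟩

end Pool.Agent.helper90.DH
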