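import Pool.Agent.helper5.DH.Spec

set_option autoImplicit false

open Complex Metric Set Filter Topology MeasureTheory
open Pool.Agent.helper98.ILF Pool.Agent.helper16.Multibrot
open HY (UD T S hd UN RM VV SG Orb fz)

noncomputable section

namespace DH

theorem LBV_iter_diff (n : ℕ) (c : ℂ) (i : ℕ) : Differentiable ℂ ((fz n c)^[i]) := by
  have h : Differentiable ℂ (fz n c) := by
    show Differentiable ℂ (fun z => z ^ n + c)
    fun_prop
  exact h.iterate i

theorem LBV_iter_mem (n : ℕ) (c z : ℂ) (m i : ℕ) : (fz n c)^[i] z ∈ VV n c m ↔ z ∈ VV n c (m + i) := by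
  unfold VV
  simp only [mem_setOf_eq, Function.iterate_add_apply]

/-- holomorphic inverse of an injective holomorphic function on a ball. -/
theorem LBV_inv (hKO0 : V3.KO0_stmt) {F : ℂ → ℂ} {d : ℝ} (hd : 0 < d) (hF : DifferentiableOn ℂ F (ball 0 d))
    (hinj : InjOn F (ball 0 d)) :
    ∃ g : ℂ → ℂ, (∀ x ∈ ball (0 : ℂ) d, g (F x) = x) ∧ (∀ x ∈ ball (0 : ℂ) d, DifferentiableAt ℂ g (F x)) := by
  have hop : IsOpen (ball (0 : ℂ) d) := isOpen_ball
  have hg : ∀ x ∈ ball (0 : ℂ) d, Function.invFunOn F (ball 0 d) (F x) = x := fun x hx =>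
    Function.invFunOn_apply_eq (f := F) hx |> fun h =>
      hinj (Function.invFunOn_apply_mem (f := F) hx) hx h
  refine ⟨Function.invFunOn F (ball 0 d), hg, ?_⟩
  intro x hx
  set g := Function.invFunOn F (ball 0 d) with hgdef
  have han : AnalyticAt ℂ F x := hF.analyticAt (hop.mem_nhds hx)
  have hne : deriv F x ≠ 0 := hKO0 F (ball 0 d) hop hF hinj _ hx
  have hst : HasStrictDerivAt F (deriv F x) x := han.hasStrictDerivAt
  have hmap : Filter.map F (𝓝 x) = 𝓝 (F x) := hst.map_nhds_eq hne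
  have hgx : g (F x) = x := hg x hx
  have hcont : ContinuousAt g (F x) := by
    have e1 : Tendsto (g ∘ F) (𝓝 x) (𝓝 x) := by
      refine Tendsto.congr' ?_ tendsto_id
      have e2 : ∀ᶠ y in 𝓝 x, y ∈ ball (0 : ℂ) d := hop.mem_nhds hx
      filter_upwards [e2] with y hy
      exact (hg y hy).symm
    have e4 : Tendsto g (Filter.map F (𝓝 x)) (𝓝 x) := by
      rw [tendsto_map'_iff]
      exact e1
    rw [hmap] at e4
    unfold ContinuousAt
    rw [hgx]
    exact e4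
  have hst' : HasDerivAt F (deriv F x) (g (F x)) := by
    rw [hgx]; exact hst.hasDerivAt
  refine (HasDerivAt.of_local_left_inverse hcont hst' hne ?_).differentiableAt
  have e5 : ∀ᶠ y in Filter.map F (𝓝 x), F (g y) = y := by
    rw [Filter.eventually_map]
    filter_upwards [hop.mem_nhds hx] with y hy
    rw [hg y hy]
  rw [hmap] at e5
  exact e5

theorem LBV (hAFX : AFX_stmt) (hBTP : BTP_stmt) (hCOP : COP_stmt) (hKO0 : V3.KO0_stmt) (hKO1 : V3.KO1_stmt)
    (hMOB : HY.MOB_stmt) (hVKB : HY.VKB_stmt) : LBV_stmt := by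
  obtain ⟨C, hC1, hK⟩ := hKO1
  have hC0 : 0 < C := by linarith
  refine ⟨1 / (8 * C ^ 2), by positivity, ?_⟩
  intro n c Φ b htow hAR k u hu
  obtain ⟨u', rfl⟩ := Nat.exists_eq_add_of_le' hu
  obtain ⟨-, h0f, -, -, hff, -, -, hsub, -, hfV, -, -⟩ := hVKB n c htow.hn htow.hc
  obtain ⟨hjj, hp⟩ := hBTP n c Φ b htow
  obtain ⟨hUN, hj0, hΦj⟩ := hjj k (k + (u' + 1)) (by omega)
  obtain ⟨-, hyv, -, -⟩ := hp k 0 0 h0f
  have hC := fun l => hCOP (VV n c l) 0 (Φ l) (htow.rm l)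
  have hn := htow.hn
  set m := k + u' with hm
  have hm1 : k + (u' + 1) = m + 1 := by omega
  rw [hm1] at hUN hj0 hΦj ⊢
  set j := jj Φ k (m + 1) with hj
  set κ : ℝ := ‖deriv j 0‖ with hκ
  set v := yv Φ n c k 0 (u' + 1) with hv
  by_contra hlt
  push Not at hlt
  have hv0 := norm_nonneg v
  have hκ0 : 0 < κ := by
    rcases (norm_nonneg (deriv j 0)).lt_or_eq with h | h
    · exact h
    · exfalso
      rw [hκ, ← h] at hlt
      norm_num at hlt
      linarith
  have hUDb : ∀ x : ℂ, x ∈ UD ↔ ‖x‖ < 1 := fun x => by simp [UD]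
  have hκ1 : κ ≤ 1 := by
    have h := Complex.norm_deriv_le_one_of_mapsTo_ball (f := j) (c := 0) (R := 1) hUN.dif
      (fun x hx => ball_subset_closedBall (by rw [hj0]; exact hUN.map hx)) one_pos
    exact h
  -- the map G
  set bm := b m with hbm
  have hbm1 : bm ∈ UD := htow.hb m
  obtain ⟨hmob, hTaa, hS0, hTd, hSd, -⟩ := hMOB bm hbm1
  set G : ℂ → ℂ := fun y => co (Φ k) ((fz n c)^[u'] (Φ m (S bm y))) with hG
  have hSm : MapsTo (S bm) UD UD := fun y hy => (hmob y hy).2.1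
  have hΦm : MapsTo (Φ m) UD (VV n c m) := fun y hy => ((hC m).2.2.2.2.1 y hy).1
  have hfm : MapsTo ((fz n c)^[u']) (VV n c m) (VV n c k) := fun z hz => (LBV_iter_mem n c z k u').mpr hz
  have hco := (hC k).2.2.2.1
  have hGd : DifferentiableOn ℂ G UD := by
    refine (hC k).2.2.2.2.2.1.comp ?_ ?_
    · exact (LBV_iter_diff n c u').comp_differentiableOn ((htow.rm m).dif.comp hSd hSm)
    · intro y hy
      exact hfm (hΦm (hSm hy))
  have hGm : MapsTo G UD UD := fun y hy => (hco _ (hfm (hΦm (hSm hy)))).1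
  have h0U : (0 : ℂ) ∈ UD := by simp [UD]
  have hG0 : G 0 = v := by
    simp only [hG, hv]
    unfold yv
    rw [hS0, htow.hbc m, Function.iterate_succ_apply]
    congr 2
    show c = 0 ^ n + c
    rw [zero_pow (by omega), zero_add]
  have hvU : v ∈ UD := by rw [← hG0]; exact hGm h0U
  have hv1 : ‖v‖ < 1 := (hUDb v).mp hvU
  obtain ⟨hmobv, hTvv, -, hTvd, -⟩ := hMOB v hvU
  have hGT : ∀ y ∈ UD, ‖G y - v‖ ≤ 2 * ‖y‖ := by
    intro y hy
    have h1 : DifferentiableOn ℂ (fun y => T v (G y)) (ball 0 1) := hTvd.comp hGd hGm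
    have h2 : MapsTo (fun y => T v (G y)) (ball 0 1) (closedBall 0 1) := fun z hz =>
      ball_subset_closedBall ((hmobv _ (hGm hz)).1)
    have h3 : (fun y => T v (G y)) 0 = 0 := by simp only [hG0, hTvv]
    have h4 := Complex.norm_le_norm_of_mapsTo_ball h1 h2 h3 ((hUDb y).mp hy)
    have hGy : ‖G y‖ < 1 := (hUDb _).mp (hGm hy)
    have h5 : ‖T v (G y)‖ * ‖1 - (starRingEnd ℂ) v * G y‖ = ‖G y - v‖ := by
      unfold T
      rw [norm_div, div_mul_cancel₀]
      rw [norm_ne_zero_iff]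
      intro h
      have h6 : (starRingEnd ℂ) v * G y = 1 := (sub_eq_zero.mp h).symm
      have h7 := congrArg norm h6
      rw [norm_mul, Complex.norm_conj, norm_one] at h7
      nlinarith [norm_nonneg v, norm_nonneg (G y)]
    have h6 : ‖1 - (starRingEnd ℂ) v * G y‖ ≤ 2 := by
      refine (norm_sub_le _ _).trans ?_
      rw [norm_one, norm_mul, Complex.norm_conj]
      nlinarith [norm_nonneg v, norm_nonneg (G y)]
    rw [← h5]
    have h8 : ‖T v (G y)‖ ≤ ‖y‖ := h4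
    nlinarith [norm_nonneg (T v (G y)), norm_nonneg (1 - (starRingEnd ℂ) v * G y), norm_nonneg y]
  set B : ℂ → ℂ := fun x => G (x ^ n) with hB
  have hpow : ∀ x ∈ UD, x ^ n ∈ UD ∧ ‖x ^ n‖ ≤ ‖x‖ ^ 2 := by
    intro x hx
    rw [hUDb] at hx
    rw [hUDb, norm_pow]
    refine ⟨pow_lt_one₀ (norm_nonneg _) hx (by omega), ?_⟩
    exact pow_le_pow_of_le_one (norm_nonneg _) hx.le hn
  have hBd : DifferentiableOn ℂ B UD :=
    hGd.comp (by fun_prop) (fun x hx => (hpow x hx).1)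
  have hBv : ∀ x ∈ UD, ‖B x‖ ≤ ‖v‖ + 2 * ‖x‖ ^ 2 := by
    intro x hx
    have h1 := hGT _ (hpow x hx).1
    have h2 := (hpow x hx).2
    have h3 : ‖B x‖ ≤ ‖B x - v‖ + ‖v‖ := by
      have := norm_add_le (B x - v) v
      rwa [sub_add_cancel] at this
    have h4 : ‖B x - v‖ ≤ 2 * ‖x ^ n‖ := h1
    linarith
  have hΦB : ∀ x ∈ UD, Φ k (B x) = (fz n c)^[u' + 1] (Φ (m + 1) x) := by
    intro x hx
    have h1 := (hco _ (hfm (hΦm (hSm (hpow x hx).1)))).2
    simp only [hB, hG]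
    rw [h1, ← htow.rel m x hx, Function.iterate_succ_apply]
  -- the disc
  set d : ℝ := κ / (4 * C) with hd
  have hd0 : 0 < d := by positivity
  have hd1 : d ≤ 1 / 4 := by
    rw [hd, div_le_div_iff₀ (by positivity) (by norm_num)]
    nlinarith
  have hdU : ball (0 : ℂ) d ⊆ UD := ball_subset_ball (by linarith)
  set ρ : ℝ := ‖v‖ + 2 * d ^ 2 with hρ
  have hρd : ρ < d * κ / C := by
    have h1 : 1 / (8 * C ^ 2) * κ ^ 2 + 2 * d ^ 2 = d * κ / C := by
      rw [hd]; field_simp; ring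
    linarith
  have hjd : DifferentiableOn ℂ j (ball 0 d) := hUN.dif.mono hdU
  have hji : InjOn j (ball 0 d) := hUN.inj.mono hdU
  have hcov : ball (0 : ℂ) (d * κ / C) ⊆ j '' ball 0 d := by
    have := hK j 0 d hd0 hjd hji
    rwa [hj0] at this
  obtain ⟨g, hg1, hg2⟩ := LBV_inv hKO0 hd0 hjd hji
  have hρ0 : 0 ≤ ρ := by positivity
  have hBin : ∀ x ∈ ball (0 : ℂ) d, B x ∈ closedBall (0 : ℂ) ρ := by
    intro x hx
    rw [mem_closedBall_zero_iff]
    refine (hBv x (hdU hx)).trans ?_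
    rw [mem_ball_zero_iff] at hx
    have : ‖x‖ ^ 2 ≤ d ^ 2 := by gcongr
    linarith
  have hcb : closedBall (0 : ℂ) ρ ⊆ j '' ball 0 d := (closedBall_subset_ball hρd).trans hcov
  have hgd : ∀ y ∈ closedBall (0 : ℂ) ρ, DifferentiableAt ℂ g y ∧ g y ∈ ball (0 : ℂ) d ∧ j (g y) = y := by
    intro y hy
    obtain ⟨x, hx, rfl⟩ := hcb hy
    refine ⟨hg2 x hx, ?_, ?_⟩
    · rw [hg1 x hx]; exact hx
    · rw [hg1 x hx]
  have hgc : ContinuousOn (fun y => ‖g y‖) (closedBall (0 : ℂ) ρ) := fun y hy =>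
    ((hgd y hy).1.continuousAt.norm).continuousWithinAt
  obtain ⟨y0, hy0, hmax⟩ := (isCompact_closedBall (0 : ℂ) ρ).exists_isMaxOn
    ⟨0, by simpa using hρ0⟩ hgc
  have hd' : ‖g y0‖ < d := by
    have := (hgd y0 hy0).2.1
    rwa [mem_ball_zero_iff] at this
  set h : ℂ → ℂ := fun x => g (B x) with hh
  have hhd : DifferentiableOn ℂ h (ball 0 d) := by
    intro x hx
    have h1 := (hgd _ (hBin x hx)).1
    have h2 : DifferentiableAt ℂ B x := (hBd x (hdU hx)).differentiableAt (isOpen_ball.mem_nhds (hdU hx))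
    exact (DifferentiableAt.comp x h1 h2).differentiableWithinAt
  obtain ⟨x0, hx0, hfix, hder⟩ := hAFX h d ‖g y0‖ hd0 hd' hhd (fun x hx => hmax (hBin x hx))
  have hx0U := hdU hx0
  -- the cycle
  set P : ℂ → ℂ := Φ (m + 1) with hP
  have hPf : ∀ x ∈ ball (0 : ℂ) d, (fz n c)^[u' + 1] (P x) = P (h x) := by
    intro x hx
    rw [← hΦB x (hdU hx)]
    have h1 := hgd _ (hBin x hx)
    rw [← hΦj (h x) (hdU h1.2.1)]
    show Φ k (B x) = Φ k (j (h x))
    rw [h1.2.2]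
  have hcyc : (fz n c)^[u' + 1] (P x0) = P x0 := by rw [hPf x0 hx0, hfix]
  have hPd : DifferentiableAt ℂ P x0 := ((htow.rm (m + 1)).dif x0 hx0U).differentiableAt (isOpen_ball.mem_nhds hx0U)
  have hP0 : deriv P x0 ≠ 0 := (hC (m + 1)).2.2.2.2.2.2 x0 hx0U
  have hhx0 : DifferentiableAt ℂ h x0 := (hhd x0 hx0).differentiableAt (isOpen_ball.mem_nhds hx0)
  have e1 : HasDerivAt (fun x => (fz n c)^[u' + 1] (P x)) (deriv ((fz n c)^[u' + 1]) (P x0) * deriv P x0) x0 :=
    (((LBV_iter_diff n c (u' + 1)) (P x0)).hasDerivAt).comp x0 hPd.hasDerivAt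
  have e2 : HasDerivAt (fun x => P (h x)) (deriv P x0 * deriv h x0) x0 := by
    have h1 : HasDerivAt P (deriv P x0) (h x0) := by rw [hfix]; exact hPd.hasDerivAt
    exact h1.comp x0 hhx0.hasDerivAt
  have e3 : (fun x => (fz n c)^[u' + 1] (P x)) =ᶠ[𝓝 x0] (fun x => P (h x)) := by
    filter_upwards [isOpen_ball.mem_nhds hx0] with x hx
    exact hPf x hx
  have e4 := e1.unique (e2.congr_of_eventuallyEq e3)
  have e5 : deriv ((fz n c)^[u' + 1]) (P x0) = deriv h x0 := by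
    apply mul_right_cancel₀ hP0
    rw [e4, mul_comm]
  have hfc : fz n c = MPS.fc n c := rfl
  have e6 := hAR (u' + 1) (P x0) (by omega) (by rw [← hfc]; exact hcyc)
  have e7 : MPS.mlt n (u' + 1) c (P x0) = deriv h x0 := by
    rw [← e5]; rfl
  rw [e7] at e6
  linarith

end DH
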