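import Pool.Agent.helper18.DH.SpecM

/-!
# MDS: the digit step with exact compensation (project dh, MP_5823cb_al)
-/

set_option autoImplicit false

open Filter Topology MeasureTheory
open scoped commutatorElement

namespace Pool.Agent.helper90.DH

open Pool.Agent.helper64.D2

theorem MDS_Sz_mono (g : DD) (a b : ℝ) (h : Sz g a) (hab : a ≤ b) : Sz g b :=
  fun x => (h x).trans hab

theorem MDS_Lp_mono (g : DD) (a b : ℝ) (h : Lp g a) (hab : a ≤ b) : Lp g b :=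
  fun x y => (h x y).trans (mul_le_mul_of_nonneg_right hab (abs_nonneg _))

/-- Existence of the right recursion. -/
theorem MDS_rec (q : ℕ) (T : ℕ → DD) : ∃ R : ℕ → DD, R q = 1 ∧ ∀ i < q, R i = R (i + 1) * T i := by
  let r : ℕ → DD := fun n => Nat.rec (motive := fun _ => DD) 1 (fun j u => u * T (q - (j + 1))) n
  refine ⟨fun i => r (q - i), ?_, ?_⟩
  · show r (q - q) = 1
    rw [Nat.sub_self]
    rfl
  · intro i hi
    show r (q - i) = r (q - (i + 1)) * T i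
    have h1 : q - i = (q - (i + 1)) + 1 := by omega
    have h2 : r ((q - (i + 1)) + 1) = r (q - (i + 1)) * T (q - ((q - (i + 1)) + 1)) := rfl
    rw [h1, h2]
    have h3 : q - ((q - (i + 1)) + 1) = i := by omega
    rw [h3]

theorem MDS (hSZC : SZC_stmt) (hSZR : SZR_stmt) (hFPR : FPR_stmt) (hLPC : LPC_stmt) (hLRI : LRI_stmt)
    (hMDI : MDI_stmt) (hTBA : TBA_stmt) (hTCL : TCL_stmt) (hDRR : DRR_stmt) (hLRR : LRR_stmt)
    (hCLC : CLC_stmt) (hCLI : CLI_stmt) : DST_stmt := by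
  obtain ⟨KS, hKS, HS⟩ := hSZR
  obtain ⟨KT, hKT, HT⟩ := hTCL
  obtain ⟨-, hsz, -, hszi, -⟩ := hSZC
  have hKST : 1 ≤ KS * KT := by nlinarith
  refine ⟨10 ^ 9 * (KS * KT), by nlinarith, ?_⟩
  intro q Y W G Q R ε d L γ Lam τ0 τ1 τ2 hq hF hε hγ hd hL hLam hτ0 hτ1 hτ2 hK1 hK2 hG hQ hR hW
  have hqr : (1 : ℝ) ≤ q := by exact_mod_cast hq
  set B : ℝ := Lam + L with hB
  have hB2 : 2 ≤ B := by linarith
  -- elementary smallness
  have hqγ : 0 ≤ (q : ℝ) * γ := by positivity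
  have hqd : 0 ≤ (q : ℝ) * d := by positivity
  have hsum : 0 ≤ ε + q * γ + q * d := by positivity
  have hKSle : KS ≤ KS * KT := by nlinarith
  have hKTle : KT ≤ KS * KT := by nlinarith
  have e1 : 10 ^ 9 * (KS * (ε + q * γ + q * d)) ≤ 1 := by
    have : KS * (ε + q * γ + q * d) ≤ (KS * KT) * (ε + q * γ + q * d) :=
      mul_le_mul_of_nonneg_right hKSle hsum
    linarith
  have e2 : ε + q * γ + q * d ≤ KS * (ε + q * γ + q * d) := by nlinarith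
  have e3 : ε + q * γ + q * d ≤ 1 / 10 ^ 9 := by linarith
  have hεs : ε ≤ 1 / 10 ^ 9 := by linarith
  have hqγs : q * γ ≤ 1 / 10 ^ 9 := by linarith
  have hqds : q * d ≤ 1 / 10 ^ 9 := by linarith
  have hγs : γ ≤ 1 / 10 ^ 9 := by nlinarith
  have hds : d ≤ 1 / 10 ^ 9 := by nlinarith
  have ha0 : KS * (ε + q * γ) ≤ 1 / 10 ^ 9 := by
    have : KS * (ε + q * γ) ≤ KS * (ε + q * γ + q * d) :=
      mul_le_mul_of_nonneg_left (by linarith) (by linarith)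
    linarith
  -- the quantity X
  set X : ℝ := τ2 + τ1 + τ0 * B with hX
  have hX0 : 0 ≤ X := by positivity
  have hXτ2 : τ2 ≤ X := by
    have : 0 ≤ τ0 * B := by positivity
    linarith
  have hXτ1 : τ1 ≤ X := by
    have : 0 ≤ τ0 * B := by positivity
    linarith
  have hXτ0 : τ0 * B ≤ X := by linarith
  have hXτ0' : 2 * τ0 ≤ X := by nlinarith
  have hq1 : (1 : ℝ) ≤ (q : ℝ) ^ 2 := by nlinarith
  have hq3 : (1 : ℝ) ≤ (q : ℝ) ^ 3 := one_le_pow₀ hqr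
  have hq34 : (q : ℝ) ^ 3 ≤ (q : ℝ) ^ 4 := pow_le_pow_right₀ hqr (by norm_num)
  have hq13 : (q : ℝ) ≤ (q : ℝ) ^ 3 := by
    calc (q : ℝ) = (q : ℝ) ^ 1 := (pow_one _).symm
      _ ≤ (q : ℝ) ^ 3 := pow_le_pow_right₀ hqr (by norm_num)
  have hq23 : (q : ℝ) ^ 2 ≤ (q : ℝ) ^ 3 := pow_le_pow_right₀ hqr (by norm_num)
  have hKX : 10 ^ 9 * (KT * ((q : ℝ) ^ 3 * X)) ≤ 1 := by
    have h1 : KT * ((q : ℝ) ^ 3 * X) ≤ (KS * KT) * ((q : ℝ) ^ 4 * X) := by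
      apply mul_le_mul hKTle _ (by positivity) (by positivity)
      exact mul_le_mul_of_nonneg_right hq34 hX0
    have h2 : 10 ^ 9 * (KS * KT) * (q : ℝ) ^ 4 * X = 10 ^ 9 * ((KS * KT) * ((q : ℝ) ^ 4 * X)) := by ring
    rw [h2] at hK2
    linarith
  have hq3X : (q : ℝ) ^ 3 * X ≤ KT * ((q : ℝ) ^ 3 * X) := by
    have : 0 ≤ (q : ℝ) ^ 3 * X := by positivity
    nlinarith
  have hXs : X ≤ 1 / 10 ^ 9 := by
    have : X ≤ (q : ℝ) ^ 3 * X := by nlinarith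
    linarith
  have hqB : 2 ≤ (q : ℝ) * B := by nlinarith
  have hBq : B ≤ (q : ℝ) * B := by nlinarith
  have hqB2 : (q : ℝ) * B ≤ (q : ℝ) ^ 2 * B := by nlinarith
  -- SZR, FPR
  have hKS1 : KS * (ε + q * γ) ≤ 1 := by
    refine ha0.trans ?_
    norm_num
  obtain ⟨hS1, hS2⟩ := HS q Y G Q R ε d L γ hq hF hε hγ hKS1 (fun i hi => (hG i hi).1) hQ hR
  have hFP := hFPR q Y Q ε d L hq hF hε (by linarith [hεs, show (1 : ℝ) / 10 ^ 9 ≤ 1 / 100 by norm_num]) hL hQ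
  have hFsz : ∀ i < q, Sz (Fm Q i) (1 / 1000) := by
    intro i hi
    refine MDS_Sz_mono _ _ _ (hFP i hi).2.2.1 ?_
    have h1 : 2 * ε / q ≤ 2 * ε / 1 := div_le_div_of_nonneg_left (by linarith) one_pos hqr
    have h2 : (1 : ℝ) / 10 ^ 9 ≤ 1 / 2000 := by norm_num
    linarith
  have hRsz : ∀ i ≤ q, Sz (R i) (1 / 2000) := by
    intro i hi
    refine MDS_Sz_mono _ _ _ (hS1 i hi).2 (ha0.trans ?_)
    norm_num
  have hEsz : ∀ i < q, Sz (G i * R (i + 1)) (1 / 2000) := by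
    intro i hi
    refine MDS_Sz_mono _ _ _ (hS2 i hi).2.1 (ha0.trans ?_)
    norm_num
  have hGsz : ∀ i < q, Sz (G i) (1 / 1000) := by
    intro i hi
    refine MDS_Sz_mono _ _ _ (hG i hi).1 (hγs.trans ?_)
    norm_num
  have hd1000 : d ≤ 1 / 1000 := hds.trans (by norm_num)
  -- (1) Lipschitz constants of R_i and E_i
  have hRrec : ∀ i < q, R i = ((G i)⁻¹ * Fm Q i * G i) * R (i + 1) := fun i hi => hR.2 i hi
  have hSi : ∀ i < q, Sz ((G i)⁻¹ * Fm Q i * G i) (1 / 100) ∧ Lp ((G i)⁻¹ * Fm Q i * G i) (90 * B) := by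
    intro i hi
    have h := hTBA (G i) (Fm Q i) (1 / 1000) d (3 * B) le_rfl hd hd1000 (by linarith) (hGsz i hi) (hFsz i hi)
      (hFP i hi).2.1
    refine ⟨MDS_Sz_mono _ _ _ h.2.1 (by norm_num), ?_⟩
    have h2 := h.2.2 (MDS_Lp_mono _ _ _ (hG i hi).2 (by linarith)) (MDS_Lp_mono _ _ _ (hFP i hi).2.2.2 (by linarith))
    exact MDS_Lp_mono _ _ _ h2 (by linarith)
  have hRLp : ∀ i ≤ q, Lp (R i) (724 * (q * B)) := by
    intro i hi
    have h := hLRI q (fun i => (G i)⁻¹ * Fm Q i * G i) R (1 / 100) (90 * B) le_rfl (by linarith) hR.1 hRrec hSi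
      (fun i hi => MDS_Sz_mono _ _ _ (hRsz i hi) (by norm_num)) i hi
    refine MDS_Lp_mono _ _ _ h ?_
    nlinarith
  have hELp : ∀ i < q, Lp (G i * R (i + 1)) (1451 * (q * B)) := by
    intro i hi
    have h := hLPC.1 (G i) (R (i + 1)) (1 / 100) Lam (724 * (q * B)) le_rfl
      (MDS_Sz_mono _ _ _ (hGsz i hi) (by norm_num)) (MDS_Sz_mono _ _ _ (hRsz (i + 1) hi) (by norm_num))
      (hG i hi).2 (hRLp (i + 1) hi)
    refine MDS_Lp_mono _ _ _ h ?_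
    nlinarith
  -- (2) the maps E'_i
  have hex : ∀ i : ℕ, ∃ E' : DD, i < q → ((∀ x, ev E' x = ev (G i * R (i + 1)) x + W i x) ∧ Sz E' (1 / 1000) ∧
      Lp E' (1452 * (q * B)) ∧ Cl E' (G i * R (i + 1)) τ0 τ1 τ2) := by
    intro i
    by_cases hi : i < q
    · obtain ⟨hW1, hW2, hW3⟩ := hW i hi
      obtain ⟨E', h1, h2, h3, h4⟩ := hMDI (G i * R (i + 1)) (W i) (1 / 2000) (1451 * (q * B)) τ0 τ1 τ2
        (hEsz i hi) (by norm_num) (by linarith [show (1 : ℝ) / 10 ^ 9 ≤ 1 / 100 by norm_num]) (hELp i hi) hW1 hW2 hW3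
      refine ⟨E', fun _ => ⟨h1, MDS_Sz_mono _ _ _ h2 ?_, MDS_Lp_mono _ _ _ h3 ?_, h4⟩⟩
      · linarith [show (1 : ℝ) / 10 ^ 9 ≤ 1 / 2000 by norm_num]
      · linarith
    · exact ⟨1, fun h => absurd h hi⟩
  choose E' hE' using hex
  have hT : ∀ i < q, Sz ((G i * R (i + 1))⁻¹ * Fm Q i * (G i * R (i + 1))) (1 / 200) := by
    intro i hi
    have h := hTBA (G i * R (i + 1)) (Fm Q i) (1 / 1000) d 1 le_rfl hd hd1000 le_rfl
      (MDS_Sz_mono _ _ _ (hEsz i hi) (by norm_num)) (hFsz i hi) (hFP i hi).2.1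
    exact MDS_Sz_mono _ _ _ h.2.1 (by norm_num)
  have hT' : ∀ i < q, Sz ((E' i)⁻¹ * Fm Q i * E' i) (1 / 200) ∧ Lp ((E' i)⁻¹ * Fm Q i * E' i) (43560 * (q * B)) ∧
      ∀ x, |deriv (ev ((E' i)⁻¹ * Fm Q i * E' i)) x - 1| ≤ 4 * d := by
    intro i hi
    obtain ⟨h1, h2, h3, h4⟩ := hE' i hi
    have h := hTBA (E' i) (Fm Q i) (1 / 1000) d (1452 * (q * B)) le_rfl hd hd1000 (by linarith)
      h2 (hFsz i hi) (hFP i hi).2.1
    refine ⟨MDS_Sz_mono _ _ _ h.2.1 (by norm_num), ?_, fun x => (h.1 x).2⟩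
    have h5 := h.2.2 h3 (MDS_Lp_mono _ _ _ (hFP i hi).2.2.2 (by linarith))
    exact MDS_Lp_mono _ _ _ h5 (by linarith)
  have hTT : ∀ i < q, Cl ((E' i)⁻¹ * Fm Q i * E' i) ((G i * R (i + 1))⁻¹ * Fm Q i * (G i * R (i + 1)))
      (KT * τ0) (KT * (τ1 + τ0)) (KT * (τ2 + τ1 + 1452 * (q * B) * τ0)) := by
    intro i hi
    obtain ⟨h1, h2, h3, h4⟩ := hE' i hi
    exact HT (G i * R (i + 1)) (E' i) (Fm Q i) (1 / 1000) (1452 * (q * B)) τ0 τ1 τ2 le_rfl (by linarith)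
      (MDS_Sz_mono _ _ _ (hEsz i hi) (by norm_num)) h2 (hFsz i hi) (MDS_Lp_mono _ _ _ (hELp i hi) (by linarith))
      (MDS_Lp_mono _ _ _ (hFP i hi).2.2.2 (by linarith)) h4
  have hRT : ∀ i < q, R i = R (i + 1) * ((G i * R (i + 1))⁻¹ * Fm Q i * (G i * R (i + 1))) := by
    intro i hi
    rw [hRrec i hi]
    group
  -- (3) the maps R'_i
  obtain ⟨R', hR'q, hR'⟩ := MDS_rec q (fun i => (E' i)⁻¹ * Fm Q i * E' i)
  have hδ : 4 * ((q : ℝ) * (4 * d)) ≤ 1 := by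
    linarith [show (1 : ℝ) / 10 ^ 9 ≤ 1 / 16 by norm_num]
  set r0 : ℝ := 2 * q * (KT * τ0) with hr0
  set r1 : ℝ := 4 * q * (KT * (τ1 + τ0) + KT * τ0) with hr1
  set r2 : ℝ := 12 * q ^ 2 * (KT * (τ2 + τ1 + 1452 * (q * B) * τ0) + KT * (τ1 + τ0) + (724 * (q * B) + 1) * (KT * τ0)) with hr2
  have hClR : ∀ i ≤ q, Cl (R' i) (R i) r0 r1 r2 := by
    have h := hDRR q (fun i => (G i * R (i + 1))⁻¹ * Fm Q i * (G i * R (i + 1))) (fun i => (E' i)⁻¹ * Fm Q i * E' i)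
      R R' (1 / 100) (724 * (q * B)) (4 * d) (KT * τ0) (KT * (τ1 + τ0)) (KT * (τ2 + τ1 + 1452 * (q * B) * τ0))
      hq le_rfl (by positivity) (by positivity) hδ hR.1 hR'q (fun i hi => ⟨hRT i hi, hR' i hi⟩)
      (fun i hi => ⟨MDS_Sz_mono _ _ _ (hT i hi) (by norm_num), MDS_Sz_mono _ _ _ (hT' i hi).1 (by norm_num), hTT i hi,
        (hT' i hi).2.2⟩)
      (fun i hi => ⟨MDS_Sz_mono _ _ _ (hRsz i hi) (by norm_num), hRLp i hi⟩) (by positivity) (by positivity) (by positivity)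
    exact h
  -- sizes of r0, r1, r2
  set P : ℝ := KT * ((q : ℝ) ^ 3 * X) with hP
  have hP0 : 0 ≤ P := by positivity
  have hKT0 : 0 ≤ KT := by linarith
  have b0 : KT * ((q : ℝ) * τ0) * 2 ≤ P := by
    have h1 : (q : ℝ) * τ0 * 2 ≤ (q : ℝ) ^ 3 * X := by
      calc (q : ℝ) * τ0 * 2 = (q : ℝ) * (2 * τ0) := by ring
        _ ≤ (q : ℝ) ^ 3 * X := mul_le_mul hq13 hXτ0' (by positivity) (by positivity)
    calc KT * ((q : ℝ) * τ0) * 2 = KT * ((q : ℝ) * τ0 * 2) := by ring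
      _ ≤ KT * ((q : ℝ) ^ 3 * X) := mul_le_mul_of_nonneg_left h1 hKT0
  have b1 : KT * ((q : ℝ) * τ1) ≤ P := by
    have h1 : (q : ℝ) * τ1 ≤ (q : ℝ) ^ 3 * X := mul_le_mul hq13 hXτ1 (by positivity) (by positivity)
    exact mul_le_mul_of_nonneg_left h1 hKT0
  have b2 : KT * ((q : ℝ) ^ 2 * (B * τ0)) ≤ P := by
    have h1 : (q : ℝ) ^ 2 * (B * τ0) ≤ (q : ℝ) ^ 3 * X :=
      mul_le_mul hq23 (by linarith) (by positivity) (by positivity)
    exact mul_le_mul_of_nonneg_left h1 hKT0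
  have b3 : KT * ((q : ℝ) ^ 3 * (B * τ0)) ≤ KT * ((q : ℝ) ^ 3 * X) - KT * ((q : ℝ) ^ 3 * τ2) - KT * ((q : ℝ) ^ 3 * τ1) := by
    have : KT * ((q : ℝ) ^ 3 * X) = KT * ((q : ℝ) ^ 3 * τ2) + KT * ((q : ℝ) ^ 3 * τ1) + KT * ((q : ℝ) ^ 3 * (B * τ0)) := by
      rw [hX]; ring
    linarith
  have b4 : KT * ((q : ℝ) ^ 2 * τ2) ≤ KT * ((q : ℝ) ^ 3 * τ2) :=
    mul_le_mul_of_nonneg_left (mul_le_mul_of_nonneg_right hq23 hτ2) hKT0
  have b5 : KT * ((q : ℝ) ^ 2 * τ1) ≤ KT * ((q : ℝ) ^ 3 * τ1) :=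
    mul_le_mul_of_nonneg_left (mul_le_mul_of_nonneg_right hq23 hτ1) hKT0
  have b6 : KT * ((q : ℝ) ^ 2 * τ0) * 2 ≤ KT * ((q : ℝ) ^ 3 * (B * τ0)) := by
    have h1 : (q : ℝ) ^ 2 * (2 * τ0) ≤ (q : ℝ) ^ 3 * (B * τ0) :=
      mul_le_mul hq23 (mul_le_mul_of_nonneg_right hB2 hτ0) (by positivity) (by positivity)
    have h2 := mul_le_mul_of_nonneg_left h1 hKT0
    calc KT * ((q : ℝ) ^ 2 * τ0) * 2 = KT * ((q : ℝ) ^ 2 * (2 * τ0)) := by ring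
      _ ≤ _ := h2
  have c0 : 0 ≤ KT * ((q : ℝ) ^ 3 * τ2) := by positivity
  have c1 : 0 ≤ KT * ((q : ℝ) ^ 3 * τ1) := by positivity
  have c2 : 0 ≤ KT * ((q : ℝ) ^ 3 * (B * τ0)) := by positivity
  have er2 : r2 = 12 * (KT * ((q : ℝ) ^ 2 * τ2)) + 24 * (KT * ((q : ℝ) ^ 2 * τ1)) +
      12 * 2176 * (KT * ((q : ℝ) ^ 3 * (B * τ0))) + 24 * (KT * ((q : ℝ) ^ 2 * τ0)) := by
    rw [hr2]; ring
  have hr2le : r2 ≤ 26124 * P := by
    rw [er2]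
    linarith
  have hr1le : r1 ≤ 8 * P := by
    have : r1 = 4 * (KT * ((q : ℝ) * τ1)) + 8 * (KT * ((q : ℝ) * τ0)) := by rw [hr1]; ring
    rw [this]
    linarith
  have hr0le : r0 ≤ P := by
    have : r0 = 2 * (KT * ((q : ℝ) * τ0)) := by rw [hr0]; ring
    rw [this]
    linarith
  have hqBr0 : (q : ℝ) * B * r0 ≤ 2 * P := by
    have : (q : ℝ) * B * r0 = 2 * (KT * ((q : ℝ) ^ 2 * (B * τ0))) := by rw [hr0]; ring
    rw [this]
    linarith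
  have hP9 : 10 ^ 9 * P ≤ 1 := hKX
  have hr2s : r2 ≤ 1 / 2000 := by linarith
  have hR'sz : ∀ i ≤ q, Sz (R' i) (1 / 1000) := by
    intro i hi x
    have h1 := hRsz i hi x
    have h2 := (hClR i hi x).2.2
    have h3 : |d2 (ev (R' i)) x| ≤ |d2 (ev (R' i)) x - d2 (ev (R i)) x| + |d2 (ev (R i)) x| := by
      have := abs_add_le (d2 (ev (R' i)) x - d2 (ev (R i)) x) (d2 (ev (R i)) x)
      rwa [sub_add_cancel] at this
    linarith
  have hR'Lp : ∀ i ≤ q, Lp (R' i) (348490 * (q ^ 2 * B)) := by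
    intro i hi
    have h := hLRR q (fun i => (E' i)⁻¹ * Fm Q i * E' i) R' (1 / 100) (4 * d) (43560 * (q * B)) le_rfl
      (by positivity) hδ (by positivity) hR'q hR' (fun i hi => ⟨MDS_Sz_mono _ _ _ (hT' i hi).1 (by norm_num), (hT' i hi).2⟩)
      (fun i hi => MDS_Sz_mono _ _ _ (hR'sz i hi) (by norm_num)) i hi
    refine MDS_Lp_mono _ _ _ h ?_
    have h1 : (q : ℝ) * (8 * (43560 * (q * B)) + 8) + 1 = 348480 * (q ^ 2 * B) + 8 * q + 1 := by ring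
    rw [h1]
    have h3 : (q : ℝ) ≤ (q : ℝ) ^ 2 := by nlinarith
    have h2 : (q : ℝ) * 2 ≤ (q : ℝ) ^ 2 * B := mul_le_mul h3 hB2 (by norm_num) (by positivity)
    linarith
  have hR'isz : ∀ i ≤ q, Sz (R' i)⁻¹ (1 / 100) := by
    intro i hi
    exact MDS_Sz_mono _ _ _ (hszi (R' i) (1 / 1000) (hR'sz i hi) (by norm_num)) (by norm_num)
  have hRisz : ∀ i ≤ q, Sz (R i)⁻¹ (1 / 100) := by
    intro i hi
    exact MDS_Sz_mono _ _ _ (hszi (R i) (1 / 2000) (hRsz i hi) (by norm_num)) (by norm_num)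
  -- the new conjugators
  refine ⟨fun i => E' i * (R' (i + 1))⁻¹, R', ⟨hR'q, ?_⟩, ?_, ?_⟩
  · intro i hi
    have h1 : R' i = R' (i + 1) * ((E' i)⁻¹ * Fm Q i * E' i) := hR' i hi
    rw [h1]
    show R' (i + 1) * ((E' i)⁻¹ * (Q i * (Q (i + 1))⁻¹) * E' i) =
      (E' i * (R' (i + 1))⁻¹)⁻¹ * (Q i * (Q (i + 1))⁻¹) * (E' i * (R' (i + 1))⁻¹) * R' (i + 1)
    group
  · intro i hi x
    have h1 : E' i * (R' (i + 1))⁻¹ * R' (i + 1) = E' i := inv_mul_cancel_right _ _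
    show ev (E' i * (R' (i + 1))⁻¹ * R' (i + 1)) x = _
    rw [h1]
    exact (hE' i hi).1 x
  · intro i hi
    obtain ⟨h1, h2, h3, h4⟩ := hE' i hi
    have hi1 : i + 1 ≤ q := hi
    have hcli := hCLI (R (i + 1)) (R' (i + 1)) (1 / 100) (724 * (q * B)) r0 r1 r2 le_rfl (by positivity)
      (MDS_Sz_mono _ _ _ (hRsz _ hi1) (by norm_num)) (MDS_Sz_mono _ _ _ (hR'sz _ hi1) (by norm_num)) (hRLp _ hi1)
      (hClR _ hi1)
    have hclc := hCLC (G i * R (i + 1)) (E' i) (R (i + 1))⁻¹ (R' (i + 1))⁻¹ (1 / 100) (1451 * (q * B)) 1 τ0 τ1 τ2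
      (2 * r0) (2 * r1 + r0) (2 * r2 + r1 + 2 * (724 * (q * B)) * r0 + r0) le_rfl (by positivity) zero_le_one
      (MDS_Sz_mono _ _ _ (hEsz i hi) (by norm_num)) (hRisz _ hi1) (hR'isz _ hi1) (hELp i hi)
      (fun x => ((hsz _ _ (hR'isz _ hi1) x).1).trans (by norm_num)) h4 hcli
    have hGE : G i * R (i + 1) * (R (i + 1))⁻¹ = G i := mul_inv_cancel_right _ _
    rw [hGE] at hclc
    constructor
    · intro x
      have g1 := (hclc x).2.2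
      have g2 := (hG i hi).1 x
      have g3 : |d2 (ev (E' i * (R' (i + 1))⁻¹)) x| ≤
          |d2 (ev (E' i * (R' (i + 1))⁻¹)) x - d2 (ev (G i)) x| + |d2 (ev (G i)) x| := by
        have := abs_add_le (d2 (ev (E' i * (R' (i + 1))⁻¹)) x - d2 (ev (G i)) x) (d2 (ev (G i)) x)
        rwa [sub_add_cancel] at this
      have g4 : (1 + (1 : ℝ)) ^ 2 * τ2 + τ1 + 2 * (2 * r2 + r1 + 2 * (724 * (q * B)) * r0 + r0) + (2 * r1 + r0) +
          2 * (1451 * (q * B)) * (2 * r0) + 2 * r0 =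
          4 * τ2 + τ1 + 4 * r2 + 4 * r1 + 8700 * (q * B * r0) + 5 * r0 := by ring
      have g5 : 4 * τ2 + τ1 ≤ 4 * P := by
        have k1 : 4 * τ2 + τ1 ≤ 4 * X := by
          have : 0 ≤ τ0 * B := by positivity
          linarith
        have k2 : X ≤ (q : ℝ) ^ 3 * X := by nlinarith
        linarith
      have g6 : P ≤ (KS * KT) * ((q : ℝ) ^ 3 * X) := mul_le_mul_of_nonneg_right hKTle (by positivity)
      have g7 : 10 ^ 9 * (KS * KT) * (q : ℝ) ^ 3 * X = 10 ^ 9 * ((KS * KT) * ((q : ℝ) ^ 3 * X)) := by ring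
      show |d2 (ev (E' i * (R' (i + 1))⁻¹)) x| ≤ γ + 10 ^ 9 * (KS * KT) * (q : ℝ) ^ 3 * X
      rw [g7]
      rw [g4] at g1
      linarith
    · have k1 := hLPC.2 (R' (i + 1)) (1 / 100) (348490 * (q ^ 2 * B)) le_rfl
        (MDS_Sz_mono _ _ _ (hR'sz _ hi1) (by norm_num)) (hR'Lp _ hi1)
      have k2 := hLPC.1 (E' i) (R' (i + 1))⁻¹ (1 / 100) (1452 * (q * B)) (2 * (348490 * (q ^ 2 * B)) + 1) le_rfl
        (MDS_Sz_mono _ _ _ h2 (by norm_num)) (hR'isz _ hi1) h3 k1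
      refine MDS_Lp_mono _ _ _ k2 ?_
      have k3 : (q : ℝ) ^ 2 * B ≤ (KS * KT) * ((q : ℝ) ^ 2 * B) := by
        have : 0 ≤ (q : ℝ) ^ 2 * B := by positivity
        nlinarith
      have k4 : 10 ^ 9 * (KS * KT) * (q : ℝ) ^ 2 * B = 10 ^ 9 * ((KS * KT) * ((q : ℝ) ^ 2 * B)) := by ring
      rw [k4]
      linarith

end Pool.Agent.helper90.DH
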