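import Pool.Agent.helper52.HY.Spec

set_option autoImplicit false

open Complex Metric Set Filter Topology Asymptotics
open HY (UD)

noncomputable section

namespace DHX

/-- second order expansion with coefficient `κ` of `‖h‖²`; the rest is harmonic. -/
def MXP_Q (u : ℂ → ℝ) (w : ℂ) (κ : ℝ) : Prop :=
  ∃ a b : ℂ, (fun h : ℂ => u (w + h) - u w - (a * h).re - (b * h ^ 2).re - κ * ‖h‖ ^ 2) =o[𝓝 0]
    (fun h : ℂ => ‖h‖ ^ 2)

theorem MXP_Q_add {u v : ℂ → ℝ} {w : ℂ} {κ l : ℝ} (hu : MXP_Q u w κ) (hv : MXP_Q v w l) :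
    MXP_Q (fun z => u z + v z) w (κ + l) := by
  obtain ⟨a, b, h1⟩ := hu
  obtain ⟨a', b', h2⟩ := hv
  refine ⟨a + a', b + b', (h1.add h2).congr_left ?_⟩
  intro h
  simp only [add_mul, add_re]
  ring

theorem MXP_Q_smul {u : ℂ → ℝ} {w : ℂ} {κ : ℝ} (s : ℝ) (hu : MXP_Q u w κ) :
    MXP_Q (fun z => s * u z) w (s * κ) := by
  obtain ⟨a, b, h1⟩ := hu
  refine ⟨s * a, s * b, (h1.const_mul_left s).congr_left ?_⟩
  intro h
  have e1 : ((s : ℂ) * a * h).re = s * (a * h).re := by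
    rw [mul_assoc, Complex.re_ofReal_mul]
  have e2 : ((s : ℂ) * b * h ^ 2).re = s * (b * h ^ 2).re := by
    rw [mul_assoc, Complex.re_ofReal_mul]
  rw [e1, e2]
  ring

theorem MXP_Q_const (w : ℂ) (s : ℝ) : MXP_Q (fun _ => s) w 0 := by
  refine ⟨0, 0, ?_⟩
  simp only [sub_self, zero_mul, zero_re]
  exact isLittleO_zero _ _

theorem MXP_Q_sum {ι : Type} (s : Finset ι) {u : ι → ℂ → ℝ} {w : ℂ} {κ : ι → ℝ}
    (hu : ∀ i ∈ s, MXP_Q (u i) w (κ i)) : MXP_Q (fun z => ∑ i ∈ s, u i z) w (∑ i ∈ s, κ i) := by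
  classical
  induction s using Finset.induction_on with
  | empty => simpa using MXP_Q_const w 0
  | insert i s his ih =>
    have h1 := hu i (Finset.mem_insert_self _ _)
    have h2 := ih (fun j hj => hu j (Finset.mem_insert_of_mem hj))
    have h3 := MXP_Q_add h1 h2
    simpa only [Finset.sum_insert his] using h3

theorem MXP_Q_congr {u v : ℂ → ℝ} {w : ℂ} {κ : ℝ} (hu : MXP_Q u w κ) (h : u =ᶠ[𝓝 w] v) :
    MXP_Q v w κ := by
  obtain ⟨a, b, h1⟩ := hu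
  refine ⟨a, b, h1.congr' ?_ EventuallyEq.rfl⟩
  have h2 : Tendsto (fun x : ℂ => w + x) (𝓝 0) (𝓝 w) := by
    have : ContinuousAt (fun x : ℂ => w + x) 0 := by fun_prop
    simpa [ContinuousAt] using this
  have h3 := h2.eventually h
  filter_upwards [h3] with x hx
  rw [hx, h.eq_of_nhds]

/-- expansion of an analytic function to the order two. -/
theorem MXP_tay {G : ℂ → ℂ} {w : ℂ} (hG : AnalyticAt ℂ G w) : ∃ b : ℂ,
    (fun h : ℂ => G (w + h) - G w - deriv G w * h - b * h ^ 2) =o[𝓝 0] (fun h : ℂ => h ^ 2) := by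
  obtain ⟨p, hp⟩ := hG
  have h3 := hp.isBigO_sub_partialSum_pow 3
  have hc0 : p 0 (fun _ => (0 : ℂ)) = G w := hp.coeff_zero _
  have hd : deriv G w = p.coeff 1 := by
    rw [hp.deriv]; rfl
  refine ⟨p.coeff 2, ?_⟩
  have h4 : (fun h : ℂ => G (w + h) - p.partialSum 3 h) =o[𝓝 0] (fun h : ℂ => h ^ 2) := by
    refine h3.trans_isLittleO ?_
    have h5 : (fun h : ℂ => ‖h‖ ^ 3) =o[𝓝 0] (fun h : ℂ => ‖h‖ ^ 2) := by
      have h6 : (fun t : ℝ => t ^ 3) =o[𝓝 0] (fun t : ℝ => t ^ 2) := by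
        exact isLittleO_pow_pow (by norm_num)
      have h7 : Tendsto (fun h : ℂ => ‖h‖) (𝓝 0) (𝓝 0) := tendsto_norm_zero
      exact h6.comp_tendsto h7
    refine h5.trans_isBigO ?_
    refine IsBigO.of_bound 1 (Eventually.of_forall fun h => ?_)
    simp [norm_pow]
  refine h4.congr_left ?_
  intro h
  have e : p.partialSum 3 h = G w + deriv G w * h + p.coeff 2 * h ^ 2 := by
    rw [FormalMultilinearSeries.partialSum, Finset.sum_range_succ, Finset.sum_range_succ,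
      Finset.sum_range_succ, Finset.sum_range_zero]
    have a0 : (p 0 fun _ => h) = G w := hp.coeff_zero _
    rw [a0, FormalMultilinearSeries.apply_eq_pow_smul_coeff, FormalMultilinearSeries.apply_eq_pow_smul_coeff, hd]
    simp only [smul_eq_mul]
    ring
  rw [e]
  ring

theorem MXP_nrm2 : (fun h : ℂ => h ^ 2) =O[𝓝 0] (fun h : ℂ => ‖h‖ ^ 2) :=
  IsBigO.of_bound 1 (Eventually.of_forall fun h => by simp [norm_pow])

theorem MXP_Q_re {G : ℂ → ℂ} {w : ℂ} (hG : AnalyticAt ℂ G w) : MXP_Q (fun z => (G z).re) w 0 := by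
  obtain ⟨b, hb⟩ := MXP_tay hG
  refine ⟨deriv G w, b, ?_⟩
  have h1 := hb.trans_isBigO MXP_nrm2
  refine IsBigO.trans_isLittleO ?_ h1
  refine IsBigO.of_bound 1 (Eventually.of_forall fun h => ?_)
  have e : (G (w + h)).re - (G w).re - (deriv G w * h).re - (b * h ^ 2).re - 0 * ‖h‖ ^ 2 =
      (G (w + h) - G w - deriv G w * h - b * h ^ 2).re := by
    simp only [sub_re]; ring
  rw [e, one_mul, Real.norm_eq_abs]
  exact Complex.abs_re_le_norm _

theorem MXP_Q_normsq {F : ℂ → ℂ} {w : ℂ} (hF : AnalyticAt ℂ F w) :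
    MXP_Q (fun z => ‖F z‖ ^ 2) w (‖deriv F w‖ ^ 2) := by
  obtain ⟨b, hb⟩ := MXP_tay hF
  set d := deriv F w with hd
  set f0 := F w with hf0
  set R : ℂ → ℂ := fun h => F (w + h) - f0 - d * h - b * h ^ 2 with hR
  set Q : ℂ → ℂ := fun h => b * h ^ 2 + R h with hQ
  have hR2 : R =o[𝓝 0] (fun h : ℂ => h ^ 2) := hb
  have hQ2 : Q =O[𝓝 0] (fun h : ℂ => h ^ 2) := by
    have h1 : (fun h : ℂ => b * h ^ 2) =O[𝓝 0] (fun h : ℂ => h ^ 2) := (isBigO_refl _ _).const_mul_left b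
    exact h1.add hR2.isBigO
  have hid : (fun h : ℂ => h) =o[𝓝 0] (fun _ : ℂ => (1 : ℂ)) := by
    rw [isLittleO_one_iff]
    exact tendsto_id
  have hsq : (fun h : ℂ => h ^ 2) =o[𝓝 0] (fun _ : ℂ => (1 : ℂ)) := by
    rw [isLittleO_one_iff]
    have : ContinuousAt (fun h : ℂ => h ^ 2) 0 := by fun_prop
    simpa [ContinuousAt] using this
  refine ⟨2 * (starRingEnd ℂ) f0 * d, 2 * (starRingEnd ℂ) f0 * b, ?_⟩
  have key : ∀ h : ℂ, ‖F (w + h)‖ ^ 2 - ‖f0‖ ^ 2 - (2 * (starRingEnd ℂ) f0 * d * h).re -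
      (2 * (starRingEnd ℂ) f0 * b * h ^ 2).re - ‖d‖ ^ 2 * ‖h‖ ^ 2 =
      2 * ((starRingEnd ℂ) f0 * R h).re + 2 * ((starRingEnd ℂ) (d * h) * Q h).re + ‖Q h‖ ^ 2 := by
    intro h
    have e1 : F (w + h) = f0 + d * h + Q h := by
      simp only [hQ, hR]; ring
    have e2 : R h = Q h - b * h ^ 2 := by simp only [hQ]; ring
    rw [e1, e2, ← Complex.normSq_eq_norm_sq, ← Complex.normSq_eq_norm_sq, ← Complex.normSq_eq_norm_sq,
      ← Complex.normSq_eq_norm_sq, ← Complex.normSq_eq_norm_sq]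
    generalize Q h = q
    simp only [Complex.normSq_apply, add_re, add_im, mul_re, mul_im, sub_re, sub_im, conj_re, conj_im,
      pow_two, Complex.re_ofNat, Complex.im_ofNat]
    ring
  refine IsLittleO.congr_left (f₁ := fun h : ℂ => 2 * ((starRingEnd ℂ) f0 * R h).re +
    2 * ((starRingEnd ℂ) (d * h) * Q h).re + ‖Q h‖ ^ 2) ?_ (fun h => (key h).symm)
  have hno : ∀ {g : ℂ → ℝ}, g =o[𝓝 0] (fun h : ℂ => h ^ 2) → g =o[𝓝 0] (fun h : ℂ => ‖h‖ ^ 2) :=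
    fun hg => hg.trans_isBigO MXP_nrm2
  refine hno ?_
  refine IsLittleO.add (IsLittleO.add ?_ ?_) ?_
  · refine IsBigO.trans_isLittleO ?_ hR2
    refine IsBigO.of_bound (2 * ‖f0‖) (Eventually.of_forall fun h => ?_)
    rw [Real.norm_eq_abs, abs_mul, abs_two]
    have := Complex.abs_re_le_norm ((starRingEnd ℂ) f0 * R h)
    rw [norm_mul, Complex.norm_conj] at this
    nlinarith [norm_nonneg (R h), norm_nonneg f0]
  · have h3 : (fun h : ℂ => h * Q h) =o[𝓝 0] (fun h : ℂ => (1 : ℂ) * h ^ 2) := hid.mul_isBigO hQ2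
    simp only [one_mul] at h3
    refine IsBigO.trans_isLittleO ?_ h3
    refine IsBigO.of_bound (2 * ‖d‖) (Eventually.of_forall fun h => ?_)
    rw [Real.norm_eq_abs, abs_mul, abs_two]
    have := Complex.abs_re_le_norm ((starRingEnd ℂ) (d * h) * Q h)
    rw [norm_mul, Complex.norm_conj, norm_mul] at this
    rw [norm_mul]
    nlinarith
  · have h3 : (fun h : ℂ => Q h * Q h) =o[𝓝 0] (fun h : ℂ => (1 : ℂ) * h ^ 2) :=
      (hQ2.trans_isLittleO hsq).mul_isBigO hQ2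
    simp only [one_mul] at h3
    refine IsBigO.trans_isLittleO ?_ h3
    refine IsBigO.of_bound 1 (Eventually.of_forall fun h => ?_)
    rw [norm_mul, one_mul, Real.norm_eq_abs, abs_of_nonneg (by positivity), pow_two]

theorem MXP_Q_logG {G : ℂ → ℂ} {w : ℂ} (hG : AnalyticAt ℂ G w) (h0 : G w ≠ 0) :
    MXP_Q (fun z => Real.log ‖G z‖) w 0 := by
  have h1 : AnalyticAt ℂ (fun z => Complex.log (G z / G w)) w := by
    refine AnalyticAt.clog (hG.div analyticAt_const h0) ?_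
    rw [div_self h0]
    exact Complex.one_mem_slitPlane
  have h2 := MXP_Q_add (MXP_Q_re h1) (MXP_Q_const w (Real.log ‖G w‖))
  rw [add_zero] at h2
  refine MXP_Q_congr h2 ?_
  have h3 : ∀ᶠ z in 𝓝 w, G z ≠ 0 := hG.continuousAt.eventually_ne h0
  filter_upwards [h3] with z hz
  rw [Complex.log_re, norm_div, Real.log_div (norm_ne_zero_iff.mpr hz) (norm_ne_zero_iff.mpr h0)]
  ring

theorem MXP_Q_logP {w : ℂ} (hw : ‖w‖ < 1) :
    MXP_Q (fun z => Real.log (1 - ‖z‖ ^ 2)) w (-(1 / (1 - ‖w‖ ^ 2) ^ 2)) := by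
  set P : ℝ := 1 - ‖w‖ ^ 2 with hP
  have hPpos : 0 < P := by
    have := norm_nonneg w
    rw [hP]; nlinarith
  have hP1 : P ≤ 1 := by rw [hP]; nlinarith [norm_nonneg w]
  refine ⟨-(2 / P : ℝ) * (starRingEnd ℂ) w, -(1 / P ^ 2 : ℝ) * ((starRingEnd ℂ) w) ^ 2, ?_⟩
  have hO : (fun h : ℂ => Real.log (1 - ‖w + h‖ ^ 2) - Real.log (1 - ‖w‖ ^ 2) -
      (-(2 / P : ℝ) * (starRingEnd ℂ) w * h).re - (-(1 / P ^ 2 : ℝ) * ((starRingEnd ℂ) w) ^ 2 * h ^ 2).re -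
      (-(1 / P ^ 2)) * ‖h‖ ^ 2) =O[𝓝 0] (fun h : ℂ => ‖h‖ ^ 3) := by
    refine IsBigO.of_bound (2 * (3 / P) ^ 3 + 3 / P ^ 2) ?_
    have hev : ∀ᶠ h : ℂ in 𝓝 0, ‖h‖ < P / 6 := by
      have : ContinuousAt (fun h : ℂ => ‖h‖) 0 := by fun_prop
      refine this.eventually_lt continuousAt_const ?_
      simpa using hPpos
    filter_upwards [hev] with h hh
    set x : ℝ := 2 * ((starRingEnd ℂ) w * h).re + ‖h‖ ^ 2 with hx
    have hre : |((starRingEnd ℂ) w * h).re| ≤ ‖h‖ := by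
      have := Complex.abs_re_le_norm ((starRingEnd ℂ) w * h)
      rw [norm_mul, Complex.norm_conj] at this
      nlinarith [norm_nonneg h, norm_nonneg w]
    have hh1 : ‖h‖ < 1 := by linarith
    have hh0 := norm_nonneg h
    have hxb : |x| ≤ 3 * ‖h‖ := by
      have h4 : ‖h‖ ^ 2 ≤ ‖h‖ := by nlinarith
      rw [abs_le] at hre ⊢
      constructor <;> nlinarith [hre.1, hre.2, sq_nonneg ‖h‖]
    have hyb : |x / P| ≤ 3 / P * ‖h‖ := by
      rw [abs_div, abs_of_pos hPpos, div_mul_eq_mul_div, div_le_div_iff_of_pos_right hPpos]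
      exact hxb
    have hyh : |x / P| ≤ 1 / 2 := by
      refine hyb.trans ?_
      rw [div_mul_eq_mul_div, div_le_iff₀ hPpos]
      linarith
    have e0 : 1 - ‖w + h‖ ^ 2 = P * (1 - x / P) := by
      have : ‖w + h‖ ^ 2 = ‖w‖ ^ 2 + x := by
        rw [hx, ← Complex.normSq_eq_norm_sq, ← Complex.normSq_eq_norm_sq, ← Complex.normSq_eq_norm_sq]
        simp only [Complex.normSq_apply, add_re, add_im, mul_re, conj_re, conj_im]
        ring
      rw [this]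
      field_simp
      rw [hP]; ring
    have hy1 : 0 < 1 - x / P := by
      rw [abs_le] at hyh
      linarith [hyh.2]
    have hlog := Real.abs_log_sub_add_sum_range_le (x := x / P) (by linarith) 2
    have hsum : (∑ i ∈ Finset.range 2, (x / P) ^ (i + 1) / ((i : ℝ) + 1)) = x / P + (x / P) ^ 2 / 2 := by
      rw [Finset.sum_range_succ, Finset.sum_range_succ, Finset.sum_range_zero]
      norm_num
    rw [hsum] at hlog
    have hlog2 : |x / P + (x / P) ^ 2 / 2 + Real.log (1 - x / P)| ≤ 2 * (3 / P) ^ 3 * ‖h‖ ^ 3 := by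
      refine hlog.trans ?_
      rw [div_le_iff₀ (by linarith)]
      have h5 : |x / P| ^ (2 + 1) ≤ (3 / P * ‖h‖) ^ 3 := by
        gcongr
      have h6 : 0 ≤ (3 / P * ‖h‖) ^ 3 := by positivity
      have h7 : (3 / P * ‖h‖) ^ 3 = (3 / P) ^ 3 * ‖h‖ ^ 3 := by rw [mul_pow]
      rw [h7] at h5 h6
      nlinarith
    rw [e0, ← hP, Real.log_mul hPpos.ne' hy1.ne']
    have er1 : (-((2 / P : ℝ) : ℂ) * (starRingEnd ℂ) w * h).re = -(2 / P) * ((starRingEnd ℂ) w * h).re := by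
      rw [← Complex.ofReal_neg, mul_assoc, Complex.re_ofReal_mul]
    have er2 : (-((1 / P ^ 2 : ℝ) : ℂ) * ((starRingEnd ℂ) w) ^ 2 * h ^ 2).re =
        -(1 / P ^ 2) * (2 * ((starRingEnd ℂ) w * h).re ^ 2 - ‖w‖ ^ 2 * ‖h‖ ^ 2) := by
      rw [← Complex.ofReal_neg, mul_assoc, Complex.re_ofReal_mul]
      congr 1
      rw [← Complex.normSq_eq_norm_sq, ← Complex.normSq_eq_norm_sq]
      simp only [Complex.normSq_apply, pow_two, mul_re, mul_im, conj_re, conj_im]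
      ring
    rw [er1, er2]
    set y := ((starRingEnd ℂ) w * h).re with hy
    have e3 : Real.log P + Real.log (1 - x / P) - Real.log P - -(2 / P) * y -
        -(1 / P ^ 2) * (2 * y ^ 2 - ‖w‖ ^ 2 * ‖h‖ ^ 2) - -(1 / P ^ 2) * ‖h‖ ^ 2 =
        (x / P + (x / P) ^ 2 / 2 + Real.log (1 - x / P)) - (4 * y * ‖h‖ ^ 2 + ‖h‖ ^ 4) / (2 * P ^ 2) := by
      have hw2 : ‖w‖ ^ 2 = 1 - P := by rw [hP]; ring
      rw [hw2, hx]
      field_simp
      ring
    rw [e3, Real.norm_eq_abs]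
    have h8 : |(4 * y * ‖h‖ ^ 2 + ‖h‖ ^ 4) / (2 * P ^ 2)| ≤ 3 / P ^ 2 * ‖h‖ ^ 3 := by
      rw [abs_div, abs_of_pos (by positivity : (0 : ℝ) < 2 * P ^ 2), div_le_iff₀ (by positivity)]
      have h9 : |4 * y * ‖h‖ ^ 2 + ‖h‖ ^ 4| ≤ 5 * ‖h‖ ^ 3 := by
        have h10 : ‖h‖ ^ 4 ≤ ‖h‖ ^ 3 := by
          have : ‖h‖ ^ 4 = ‖h‖ ^ 3 * ‖h‖ := by ring
          rw [this]
          have : 0 ≤ ‖h‖ ^ 3 := by positivity
          nlinarith
        have h11 : |4 * y * ‖h‖ ^ 2| ≤ 4 * ‖h‖ ^ 3 := by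
          rw [abs_mul, abs_mul, abs_of_nonneg (by positivity : 0 ≤ ‖h‖ ^ 2)]
          have : |(4 : ℝ)| = 4 := by norm_num
          rw [this]
          have : ‖h‖ ^ 3 = ‖h‖ * ‖h‖ ^ 2 := by ring
          rw [this]
          have : 0 ≤ ‖h‖ ^ 2 := by positivity
          nlinarith
        have h12 : 0 ≤ ‖h‖ ^ 4 := by positivity
        rw [abs_le] at h11 ⊢
        constructor <;> linarith [h11.1, h11.2, (by positivity : 0 ≤ ‖h‖ ^ 3)]
      have h13 : 3 / P ^ 2 * ‖h‖ ^ 3 * (2 * P ^ 2) = 6 * ‖h‖ ^ 3 := by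
          field_simp
          ring
      rw [h13]
      linarith [(by positivity : 0 ≤ ‖h‖ ^ 3)]
    have h14 : ‖(‖h‖ ^ 3 : ℝ)‖ = ‖h‖ ^ 3 := by
      rw [Real.norm_eq_abs, abs_of_nonneg (by positivity)]
    rw [h14]
    refine (abs_sub _ _).trans ?_
    linarith
  refine hO.trans_isLittleO ?_
  have h6 : (fun t : ℝ => t ^ 3) =o[𝓝 0] (fun t : ℝ => t ^ 2) := isLittleO_pow_pow (by norm_num)
  exact h6.comp_tendsto tendsto_norm_zero

theorem MXP_Q_max {u : ℂ → ℝ} {w : ℂ} {κ : ℝ} (hm : IsLocalMax u w) (hu : MXP_Q u w κ) : κ ≤ 0 := by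
  by_contra hκ
  push Not at hκ
  obtain ⟨a, b, h1⟩ := hu
  have h2 := h1.def (c := κ / 2) (by positivity)
  have h3 : Tendsto (fun x : ℂ => w + x) (𝓝 0) (𝓝 w) := by
    have : ContinuousAt (fun x : ℂ => w + x) 0 := by fun_prop
    simpa [ContinuousAt] using this
  have h4 : ∀ᶠ x : ℂ in 𝓝 0, u (w + x) ≤ u w := h3.eventually hm
  obtain ⟨δ, hδ, h5⟩ := Metric.eventually_nhds_iff.mp (h2.and h4)
  set s : ℝ := δ / 2 with hs
  have hs0 : 0 < s := by positivity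
  have hk : ∀ x : ℂ, ‖x‖ = s → (a * x).re + (b * x ^ 2).re + κ / 2 * s ^ 2 ≤ 0 := by
    intro x hx
    have h6 := h5 (y := x) (by rw [dist_zero_right, hx, hs]; linarith)
    have h7 := h6.1
    rw [Real.norm_eq_abs, Real.norm_eq_abs, abs_of_nonneg (by positivity : 0 ≤ ‖x‖ ^ 2), hx, abs_le] at h7
    linarith [h6.2, h7.1]
  have k1 := hk (s : ℂ) (by rw [Complex.norm_real, Real.norm_eq_abs, abs_of_pos hs0])
  have k2 := hk (-(s : ℂ)) (by rw [norm_neg, Complex.norm_real, Real.norm_eq_abs, abs_of_pos hs0])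
  have k3 := hk (I * s) (by rw [norm_mul, Complex.norm_I, one_mul, Complex.norm_real, Real.norm_eq_abs, abs_of_pos hs0])
  have k4 := hk (-(I * s)) (by rw [norm_neg, norm_mul, Complex.norm_I, one_mul, Complex.norm_real, Real.norm_eq_abs, abs_of_pos hs0])
  have e1 : (a * (s : ℂ)).re + (a * -(s : ℂ)).re = 0 := by
    rw [mul_neg, neg_re]; ring
  have e2 : (a * (I * s)).re + (a * -(I * s)).re = 0 := by
    rw [mul_neg, neg_re]; ring
  have e3 : (b * (s : ℂ) ^ 2).re + (b * (I * s) ^ 2).re = 0 := by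
    rw [mul_pow, I_sq, neg_one_mul, mul_neg, neg_re]; ring
  have e4 : (b * (-(s : ℂ)) ^ 2).re + (b * (-(I * s)) ^ 2).re = 0 := by
    rw [neg_pow, neg_pow (I * (s : ℂ)), mul_pow I, I_sq]
    simp
  have : 0 < κ / 2 * s ^ 2 := by positivity
  linarith

/-- abstract maximum principle. -/
def MXP_stmt : Prop := ∀ (F : ℂ → ℂ) (ι : Finset ℕ) (b : ℕ → ℂ → ℂ) (p q : ℕ → ℝ) (r ε R A : ℝ),
  DifferentiableOn ℂ F UD → MapsTo F UD UD →
  (∀ T ∈ ι, DifferentiableOn ℂ (b T) UD ∧ MapsTo (b T) UD UD) → (∀ T ∈ ι, 0 ≤ p T ∧ 0 < q T) →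
  0 < r → r < 1 → 0 < ε → ε < R → R ≤ 1 → 0 < A →
  (∀ w, ‖w‖ < r → ε < ‖F w‖ → ‖F w‖ < R → (∀ T ∈ ι, b T w ≠ 0) →
    ∑ T ∈ ι, q T * (-Real.log ‖b T w‖) < 1 → 1 < A * ‖deriv F w‖ ^ 2 * (1 - ‖w‖ ^ 2) ^ 2) →
  ε < ‖F 0‖ → ‖F 0‖ < R → (∀ T ∈ ι, b T 0 ≠ 0) → ∑ T ∈ ι, q T * (-Real.log ‖b T 0‖) < 1 →
  Real.log (R / ε) * (∑ T ∈ ι, p T * (-Real.log ‖b T 0‖) + ∑ T ∈ ι, q T * (-Real.log ‖b T 0‖) +
    A * (1 - ‖F 0‖ ^ 2) / Real.log (1 / (1 - r ^ 2))) < Real.log (R / ‖F 0‖) →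
  ∃ w, ‖w‖ ≤ r ∧ ‖F w‖ = ε ∧ (∀ T ∈ ι, b T w ≠ 0) ∧ ∑ T ∈ ι, q T * (-Real.log ‖b T w‖) < 1 ∧
    ∑ T ∈ ι, p T * (-Real.log ‖b T w‖) < 1

theorem MXP : MXP_stmt := by
  intro F ι b p q r ε R A hF hFm hb hpq hr0 hr1 hε0 hεR hR1 hA hder h0ε h0R h0b h0U hmain
  by_contra hno
  have hUDo : IsOpen UD := isOpen_ball
  have hUD : ∀ w : ℂ, ‖w‖ < 1 → w ∈ UD := fun w hw => by simpa [UD] using hw
  have hUD' : ∀ w : ℂ, w ∈ UD → ‖w‖ < 1 := fun w hw => by simpa [UD] using hw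
  have hR0 : 0 < R := hε0.trans hεR
  set L : ℝ := Real.log (R / ε) with hL
  have hL0 : 0 < L := Real.log_pos ((one_lt_div hε0).mpr hεR)
  set l : ℝ := Real.log (1 / (1 - r ^ 2)) with hl
  have hr2 : 0 < 1 - r ^ 2 := by nlinarith
  have hl0 : 0 < l := by
    refine Real.log_pos ((one_lt_div hr2).mpr ?_)
    nlinarith [pow_pos hr0 2]
  have hl' : l = -Real.log (1 - r ^ 2) := by rw [hl, one_div, Real.log_inv]
  set U : ℂ → ℝ := fun w => ∑ T ∈ ι, q T * (-Real.log ‖b T w‖) with hU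
  set J : ℂ → ℝ := fun w => ∑ T ∈ ι, p T * (-Real.log ‖b T w‖) with hJ
  have hg0 : ∀ w : ℂ, ‖w‖ < 1 → ∀ T ∈ ι, 0 ≤ -Real.log ‖b T w‖ := by
    intro w hw T hT
    have h1 := hUD' _ ((hb T hT).2 (hUD w hw))
    have := Real.log_nonpos (norm_nonneg _) h1.le
    linarith
  have hU0 : ∀ w : ℂ, ‖w‖ < 1 → 0 ≤ U w := fun w hw =>
    Finset.sum_nonneg fun T hT => mul_nonneg (hpq T hT).2.le (hg0 w hw T hT)
  have hJ0 : ∀ w : ℂ, ‖w‖ < 1 → 0 ≤ J w := fun w hw =>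
    Finset.sum_nonneg fun T hT => mul_nonneg (hpq T hT).1 (hg0 w hw T hT)
  -- lower bound for b
  have hlow : ∀ w : ℂ, ‖w‖ < 1 → (∀ T ∈ ι, b T w ≠ 0) → U w < 1 → ∀ T ∈ ι,
      Real.exp (-(1 / q T)) < ‖b T w‖ := by
    intro w hw hne hUw T hT
    have h1 : q T * (-Real.log ‖b T w‖) ≤ U w :=
      Finset.single_le_sum (f := fun T => q T * (-Real.log ‖b T w‖))
        (fun S hS => mul_nonneg (hpq S hS).2.le (hg0 w hw S hS)) hT
    have hq := (hpq T hT).2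
    have h2 : -Real.log ‖b T w‖ < 1 / q T := by
      rw [lt_div_iff₀ hq]
      linarith
    have h3 : 0 < ‖b T w‖ := norm_pos_iff.mpr (hne T hT)
    rw [← Real.lt_log_iff_exp_lt h3]
    linarith
  set K0 : Set ℂ := (closedBall 0 r ∩ F ⁻¹' {z | ε ≤ ‖z‖ ∧ ‖z‖ ≤ R}) ∩
    ⋂ T ∈ ι, (closedBall 0 r ∩ (b T) ⁻¹' {z | Real.exp (-(1 / q T)) ≤ ‖z‖}) with hK0
  have hBUD : closedBall (0 : ℂ) r ⊆ UD := by
    intro w hw
    rw [mem_closedBall_zero_iff] at hw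
    exact hUD w (by linarith)
  have hFc : ContinuousOn F (closedBall 0 r) := hF.continuousOn.mono hBUD
  have hbc : ∀ T ∈ ι, ContinuousOn (b T) (closedBall 0 r) := fun T hT =>
    (hb T hT).1.continuousOn.mono hBUD
  have hK0c : IsClosed K0 := by
    refine IsClosed.inter ?_ ?_
    · refine hFc.preimage_isClosed_of_isClosed isClosed_closedBall ?_
      exact (isClosed_le continuous_const continuous_norm).inter (isClosed_le continuous_norm continuous_const)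
    · refine isClosed_biInter fun T hT => ?_
      refine (hbc T hT).preimage_isClosed_of_isClosed isClosed_closedBall ?_
      exact isClosed_le continuous_const continuous_norm
  have hK0B : K0 ⊆ closedBall 0 r := fun w hw => hw.1.1
  have hK0b : ∀ w ∈ K0, ∀ T ∈ ι, Real.exp (-(1 / q T)) ≤ ‖b T w‖ := by
    intro w hw T hT
    have := hw.2
    rw [mem_iInter₂] at this
    exact (this T hT).2
  have hK0ne : ∀ w ∈ K0, ∀ T ∈ ι, b T w ≠ 0 := by
    intro w hw T hT h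
    have := hK0b w hw T hT
    rw [h, norm_zero] at this
    exact absurd this (not_le.mpr (Real.exp_pos _))
  have hlogc : ∀ T ∈ ι, ContinuousOn (fun w => -Real.log ‖b T w‖) K0 := by
    intro T hT
    refine ContinuousOn.neg (ContinuousOn.log ((hbc T hT).mono hK0B).norm ?_)
    intro w hw
    exact norm_ne_zero_iff.mpr (hK0ne w hw T hT)
  have hUc : ContinuousOn U K0 :=
    continuousOn_finsetSum _ fun T hT => continuousOn_const.mul (hlogc T hT)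
  have hJc : ContinuousOn J K0 :=
    continuousOn_finsetSum _ fun T hT => continuousOn_const.mul (hlogc T hT)
  set K : Set ℂ := K0 ∩ U ⁻¹' Iic 1 with hK
  have hKc : IsCompact K := by
    refine (isCompact_closedBall (0 : ℂ) r).of_isClosed_subset ?_ (fun w hw => hK0B hw.1)
    exact hUc.preimage_isClosed_of_isClosed hK0c isClosed_Iic
  have hin : ∀ w : ℂ, ‖w‖ ≤ r → ε ≤ ‖F w‖ → ‖F w‖ ≤ R → (∀ T ∈ ι, b T w ≠ 0) → U w < 1 → w ∈ K := by
    intro w h1 h2 h3 h4 h5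
    have h6 := hlow w (by linarith) h4 h5
    refine ⟨⟨⟨by simpa using h1, h2, h3⟩, ?_⟩, h5.le⟩
    rw [mem_iInter₂]
    exact fun T hT => ⟨by simpa using h1, (h6 T hT).le⟩
  set D : ℂ → ℝ := fun w => Real.log R - Real.log ‖F w‖ - L * (J w + U w +
    (A * (1 - ‖F w‖ ^ 2) - Real.log (1 - ‖w‖ ^ 2)) / l) with hD
  have hDc : ContinuousOn D K := by
    have hKK : K ⊆ K0 := inter_subset_left
    have hFK : ContinuousOn F K := hFc.mono (hKK.trans hK0B)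
    have hlF : ContinuousOn (fun w => Real.log ‖F w‖) K := by
      refine ContinuousOn.log hFK.norm ?_
      intro w hw
      have : ε ≤ ‖F w‖ := hw.1.1.2.1
      linarith
    have hlw : ContinuousOn (fun w : ℂ => Real.log (1 - ‖w‖ ^ 2)) K := by
      refine ContinuousOn.log (by fun_prop) ?_
      intro w hw
      have : ‖w‖ ≤ r := by simpa using hK0B hw.1
      have h0 := norm_nonneg w
      nlinarith
    refine (continuousOn_const.sub hlF).sub (continuousOn_const.mul ?_)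
    refine ((hJc.mono hKK).add (hUc.mono hKK)).add ?_
    refine ContinuousOn.div_const ?_ _
    exact (continuousOn_const.mul (continuousOn_const.sub (hFK.norm.pow 2))).sub hlw
  have h0K : (0 : ℂ) ∈ K := hin 0 (by simpa using hr0.le) h0ε.le h0R.le h0b h0U
  obtain ⟨w0, hw0K, hw0⟩ := hKc.exists_isMaxOn ⟨0, h0K⟩ hDc
  have hF0 : 0 < ‖F 0‖ := hε0.trans h0ε
  have hD0 : 0 < D 0 := by
    simp only [hD]
    rw [Real.log_div hR0.ne' hF0.ne'] at hmain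
    have e : Real.log (1 - ‖(0 : ℂ)‖ ^ 2) = 0 := by simp
    rw [e, sub_zero]
    have : L * (J 0 + U 0 + A * (1 - ‖F 0‖ ^ 2) / l) < Real.log R - Real.log ‖F 0‖ := hmain
    linarith
  have hDw : 0 < D w0 := lt_of_lt_of_le hD0 (hw0 h0K)
  have hw0r : ‖w0‖ ≤ r := by simpa using hK0B hw0K.1
  have hw01 : ‖w0‖ < 1 := by linarith
  have hFe : ε ≤ ‖F w0‖ := hw0K.1.1.2.1
  have hFR : ‖F w0‖ ≤ R := hw0K.1.1.2.2
  have hbne := hK0ne w0 hw0K.1
  have hU1 : U w0 ≤ 1 := hw0K.2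
  have hF1 : ‖F w0‖ < 1 := hUD' _ (hFm (hUD w0 hw01))
  have hFw0 : 0 < ‖F w0‖ := hε0.trans_le hFe
  have hlogF : Real.log R - Real.log ‖F w0‖ ≤ L := by
    rw [hL, Real.log_div hR0.ne' hε0.ne']
    have := Real.log_le_log hε0 hFe
    linarith
  have hS1 : 0 ≤ A * (1 - ‖F w0‖ ^ 2) := by
    have := norm_nonneg (F w0)
    refine mul_nonneg hA.le ?_
    nlinarith
  have hP0 : 0 < 1 - ‖w0‖ ^ 2 := by nlinarith [norm_nonneg w0]
  have hS2 : 0 ≤ -Real.log (1 - ‖w0‖ ^ 2) := by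
    have : Real.log (1 - ‖w0‖ ^ 2) ≤ 0 := Real.log_nonpos hP0.le (by nlinarith [norm_nonneg w0])
    linarith
  have hDle : ∀ s : ℝ, s ≤ J w0 + U w0 + (A * (1 - ‖F w0‖ ^ 2) - Real.log (1 - ‖w0‖ ^ 2)) / l → s < 1 := by
    intro s hs
    by_contra h
    push Not at h
    have h2 : L * 1 ≤ L * (J w0 + U w0 + (A * (1 - ‖F w0‖ ^ 2) - Real.log (1 - ‖w0‖ ^ 2)) / l) :=
      mul_le_mul_of_nonneg_left (h.trans hs) hL0.le
    simp only [hD] at hDw
    linarith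
  have hSl : 0 ≤ (A * (1 - ‖F w0‖ ^ 2) - Real.log (1 - ‖w0‖ ^ 2)) / l := by
    refine div_nonneg ?_ hl0.le
    linarith
  have hUlt : U w0 < 1 := hDle _ (by linarith [hJ0 w0 hw01])
  have hJlt : J w0 < 1 := hDle _ (by linarith [hU0 w0 hw01])
  have hwlt : ‖w0‖ < r := by
    refine lt_of_le_of_ne hw0r ?_
    intro h
    have h2 : (1 : ℝ) ≤ (A * (1 - ‖F w0‖ ^ 2) - Real.log (1 - ‖w0‖ ^ 2)) / l := by
      rw [le_div_iff₀ hl0, h, hl']
      linarith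
    have := hDle 1 (by linarith [hJ0 w0 hw01, hU0 w0 hw01])
    exact lt_irrefl _ this
  have hFlt : ‖F w0‖ < R := by
    refine lt_of_le_of_ne hFR ?_
    intro h
    have h2 : 0 ≤ L * (J w0 + U w0 + (A * (1 - ‖F w0‖ ^ 2) - Real.log (1 - ‖w0‖ ^ 2)) / l) :=
      mul_nonneg hL0.le (by linarith [hJ0 w0 hw01, hU0 w0 hw01])
    simp only [hD] at hDw
    rw [h] at hDw h2
    linarith
  have hFgt : ε < ‖F w0‖ := by
    refine lt_of_le_of_ne hFe ?_
    intro h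
    exact hno ⟨w0, hw0r, h.symm, hbne, hUlt, hJlt⟩
  have hblow := hlow w0 hw01 hbne hUlt
  have hFan : AnalyticAt ℂ F w0 := hF.analyticAt (hUDo.mem_nhds (hUD w0 hw01))
  have hban : ∀ T ∈ ι, AnalyticAt ℂ (b T) w0 := fun T hT =>
    (hb T hT).1.analyticAt (hUDo.mem_nhds (hUD w0 hw01))
  have hUat : ContinuousAt U w0 := by
    refine tendsto_finsetSum _ fun T hT => ?_
    refine Tendsto.const_mul _ (Tendsto.neg ?_)
    exact ((hban T hT).continuousAt.norm).log (norm_ne_zero_iff.mpr (hbne T hT))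
  have hKn : K ∈ 𝓝 w0 := by
    have e1 : ∀ᶠ w in 𝓝 w0, ‖w‖ < r := (continuous_norm.continuousAt).eventually_lt continuousAt_const hwlt
    have e2 : ∀ᶠ w in 𝓝 w0, ε < ‖F w‖ := continuousAt_const.eventually_lt hFan.continuousAt.norm hFgt
    have e3 : ∀ᶠ w in 𝓝 w0, ‖F w‖ < R := hFan.continuousAt.norm.eventually_lt continuousAt_const hFlt
    have e4 : ∀ᶠ w in 𝓝 w0, ∀ T ∈ ι, b T w ≠ 0 := by
      rw [Filter.eventually_all_finset]
      exact fun T hT => (hban T hT).continuousAt.eventually_ne (hbne T hT)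
    have e5 : ∀ᶠ w in 𝓝 w0, U w < 1 := hUat.eventually_lt continuousAt_const hUlt
    filter_upwards [e1, e2, e3, e4, e5] with w h1 h2 h3 h4 h5
    exact hin w h1.le h2.le h3.le h4 h5
  have hloc : IsLocalMax D w0 := hw0.isLocalMax hKn
  -- expansion
  have qF := MXP_Q_logG hFan (norm_pos_iff.mp hFw0)
  have qb : ∀ T ∈ ι, MXP_Q (fun z => Real.log ‖b T z‖) w0 0 := fun T hT => MXP_Q_logG (hban T hT) (hbne T hT)
  have qU : MXP_Q U w0 0 := by
    have := MXP_Q_sum ι (u := fun T z => q T * (-Real.log ‖b T z‖)) (w := w0) (κ := fun _ => 0) (fun T hT => by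
      have := MXP_Q_smul (-q T) (qb T hT)
      rw [mul_zero] at this
      refine MXP_Q_congr this (Eventually.of_forall fun z => ?_)
      ring)
    rw [Finset.sum_const_zero] at this
    exact this
  have qJ : MXP_Q J w0 0 := by
    have := MXP_Q_sum ι (u := fun T z => p T * (-Real.log ‖b T z‖)) (w := w0) (κ := fun _ => 0) (fun T hT => by
      have := MXP_Q_smul (-p T) (qb T hT)
      rw [mul_zero] at this
      refine MXP_Q_congr this (Eventually.of_forall fun z => ?_)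
      ring)
    rw [Finset.sum_const_zero] at this
    exact this
  have qN := MXP_Q_normsq hFan
  have qP := MXP_Q_logP hw01
  have qD : MXP_Q D w0 (L * A / l * ‖deriv F w0‖ ^ 2 + L / l * (-(1 / (1 - ‖w0‖ ^ 2) ^ 2))) := by
    have h1 := MXP_Q_add (MXP_Q_add (MXP_Q_add (MXP_Q_smul (-1) qF) (MXP_Q_smul (-L) (MXP_Q_add qJ qU)))
      (MXP_Q_add (MXP_Q_smul (L * A / l) qN) (MXP_Q_smul (L / l) qP))) (MXP_Q_const w0 (Real.log R - L * A / l))
    have e : ((-1 : ℝ) * 0 + -L * (0 + 0) + (L * A / l * ‖deriv F w0‖ ^ 2 +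
        L / l * (-(1 / (1 - ‖w0‖ ^ 2) ^ 2))) + 0) = L * A / l * ‖deriv F w0‖ ^ 2 +
        L / l * (-(1 / (1 - ‖w0‖ ^ 2) ^ 2)) := by ring
    rw [e] at h1
    refine MXP_Q_congr h1 (Eventually.of_forall fun z => ?_)
    simp only [hD]
    ring
  have hk := MXP_Q_max hloc qD
  have hd := hder w0 hwlt hFgt hFlt hbne hUlt
  have hP2 : 0 < (1 - ‖w0‖ ^ 2) ^ 2 := by positivity
  have h3 : L / l * (A * ‖deriv F w0‖ ^ 2 - 1 / (1 - ‖w0‖ ^ 2) ^ 2) ≤ 0 := by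
    have : L / l * (A * ‖deriv F w0‖ ^ 2 - 1 / (1 - ‖w0‖ ^ 2) ^ 2) = L * A / l * ‖deriv F w0‖ ^ 2 +
        L / l * (-(1 / (1 - ‖w0‖ ^ 2) ^ 2)) := by ring
    rw [this]; exact hk
  have h4 : 0 < L / l := div_pos hL0 hl0
  have h5 : A * ‖deriv F w0‖ ^ 2 - 1 / (1 - ‖w0‖ ^ 2) ^ 2 ≤ 0 := by
    by_contra h
    push Not at h
    have := mul_pos h4 h
    linarith
  have h6 : A * ‖deriv F w0‖ ^ 2 ≤ 1 / (1 - ‖w0‖ ^ 2) ^ 2 := by linarith
  rw [le_div_iff₀ hP2] at h6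
  linarith

end DHX
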